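import Mathlib

/-! # Irreducible relations between two elements of a field -/

set_option autoImplicit false

namespace Pool.Agent.Q79.CB

open Polynomial IntermediateField

noncomputable section

variable {L N : Type} [Field L] [Field N] [Algebra L N]

theorem coeff_swap (p : Polynomial (Polynomial L)) (i j : ℕ) :
    ((Bivariate.swap p).coeff i).coeff j = (p.coeff j).coeff i := by
  induction p using Polynomial.induction_on' with
  | add p q hp hq => rw [map_add, coeff_add, coeff_add, coeff_add, coeff_add, hp, hq]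
  | monomial n f =>
    induction f using Polynomial.induction_on' with
    | add f g hf hg =>
      rw [map_add (monomial n), map_add, coeff_add, coeff_add, coeff_add, coeff_add, hf, hg]
    | monomial m r =>
      rw [Bivariate.swap_monomial_monomial]
      simp only [coeff_monomial]
      split_ifs <;> simp_all [coeff_monomial]

theorem aevalAeval_eq_eval₂ (t g : N) (Q : Polynomial (Polynomial L)) :
    aevalAeval t g Q = Q.eval₂ ((aeval t : Polynomial L →ₐ[L] N) : Polynomial L →+* N) g := by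
  induction Q using Polynomial.induction_on' with
  | add p q hp hq => rw [map_add, hp, hq, eval₂_add]
  | monomial n f =>
    rw [eval₂_monomial, ← C_mul_X_pow_eq_monomial, map_mul, map_pow, aevalAeval_C, aevalAeval_Y]
    rfl

/-- degrees and divisibility -/
theorem deg_lemma (t g : N) (ht : Transcendental L t) (H : Polynomial (Polynomial L))
    (hH : Irreducible H) (h0 : aevalAeval t g H = 0) :
    IsIntegral L⟮t⟯ g ∧ (minpoly L⟮t⟯ g).natDegree = H.natDegree ∧
      ∀ Q : Polynomial (Polynomial L), aevalAeval t g Q = 0 → H ∣ Q := by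
  classical
  have hinj : ∀ P : L[X], aeval t P = 0 → P = 0 := by
    intro P h
    by_contra hP
    exact ht ⟨P, hP, h⟩
  let φ : L[X] →ₐ[L] L⟮t⟯ := aeval (AdjoinSimple.gen L t)
  have hφ : ∀ P : L[X], ((φ P : L⟮t⟯) : N) = aeval t P := by
    intro P
    have h1 := aeval_algebraMap_apply N (AdjoinSimple.gen L t) P
    rw [AdjoinSimple.algebraMap_gen] at h1
    exact h1.symm
  let _ : Algebra L[X] L⟮t⟯ := φ.toRingHom.toAlgebra
  have hal : ∀ P : L[X], algebraMap L[X] L⟮t⟯ P = φ P := fun P => rfl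
  have hfs : FaithfulSMul L[X] L⟮t⟯ := by
    rw [faithfulSMul_iff_algebraMap_injective]
    intro P Q h
    rw [hal, hal] at h
    have h1 := congrArg (fun z : L⟮t⟯ => (z : N)) h
    simp only [hφ] at h1
    rw [← sub_eq_zero] at h1
    rw [← map_sub] at h1
    exact sub_eq_zero.1 (hinj _ h1)
  have hfr : IsFractionRing L[X] L⟮t⟯ := by
    apply IsFractionRing.of_field
    intro z
    obtain ⟨r, s, h⟩ := (mem_adjoin_simple_iff L (z : N)).1 z.2
    refine ⟨r, s, Subtype.ext ?_⟩
    rw [h]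
    change _ = ((algebraMap L[X] L⟮t⟯ r / algebraMap L[X] L⟮t⟯ s : L⟮t⟯) : N)
    rw [hal, hal, IntermediateField.coe_div, hφ, hφ]
  have hev : ∀ Q : Polynomial (Polynomial L), aeval g (Q.map (algebraMap L[X] L⟮t⟯)) =
      aevalAeval t g Q := by
    intro Q
    rw [aevalAeval_eq_eval₂, aeval_def, eval₂_map]
    congr 1
    ext P
    · change ((φ (C P) : L⟮t⟯) : N) = aeval t (C P)
      rw [hφ]
    · change ((φ X : L⟮t⟯) : N) = aeval t X
      rw [hφ]
  have hH0 : H ≠ 0 := hH.ne_zero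
  have hdeg : H.natDegree ≠ 0 := by
    intro h
    rw [eq_C_of_natDegree_eq_zero h, aevalAeval_C] at h0
    have h1 := hinj _ h0
    apply hH0
    rw [eq_C_of_natDegree_eq_zero h, h1, C_0]
  have hprim : H.IsPrimitive := hH.isPrimitive hdeg
  have hirr : Irreducible (H.map (algebraMap L[X] L⟮t⟯)) :=
    (hprim.irreducible_iff_irreducible_map_fraction_map (K := L⟮t⟯)).1 hH
  have hroot : aeval g (H.map (algebraMap L[X] L⟮t⟯)) = 0 := by rw [hev, h0]
  have hmin := minpoly.eq_of_irreducible hirr hroot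
  have hlc : (H.map (algebraMap L[X] L⟮t⟯)).leadingCoeff ≠ 0 :=
    leadingCoeff_ne_zero.2 hirr.ne_zero
  refine ⟨?_, ?_, ?_⟩
  · exact (IsAlgebraic.isIntegral ⟨_, hirr.ne_zero, hroot⟩)
  · rw [← hmin, natDegree_mul hirr.ne_zero (C_ne_zero.2 (inv_ne_zero hlc)), natDegree_C, add_zero,
      natDegree_map_eq_of_injective (IsFractionRing.injective L[X] L⟮t⟯)]
  · intro Q hQ
    have h1 : minpoly L⟮t⟯ g ∣ Q.map (algebraMap L[X] L⟮t⟯) := minpoly.dvd _ _ (by rw [hev, hQ])
    have h2 : H.map (algebraMap L[X] L⟮t⟯) ∣ Q.map (algebraMap L[X] L⟮t⟯) := by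
      refine dvd_trans ⟨C (H.map (algebraMap L[X] L⟮t⟯)).leadingCoeff⁻¹, ?_⟩ h1
      rw [hmin]
    exact hprim.dvd_of_fraction_map_dvd_fraction_map h2

theorem exists_rel (t g : N) (ht : Transcendental L t) (hg : IsAlgebraic L⟮t⟯ g) :
    ∃ Q : Polynomial (Polynomial L), Q ≠ 0 ∧ aevalAeval t g Q = 0 := by
  classical
  have hinj : ∀ P : L[X], aeval t P = 0 → P = 0 := by
    intro P h
    by_contra hP
    exact ht ⟨P, hP, h⟩
  let φ : L[X] →ₐ[L] L⟮t⟯ := aeval (AdjoinSimple.gen L t)
  have hφ : ∀ P : L[X], ((φ P : L⟮t⟯) : N) = aeval t P := by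
    intro P
    have h1 := aeval_algebraMap_apply N (AdjoinSimple.gen L t) P
    rw [AdjoinSimple.algebraMap_gen] at h1
    exact h1.symm
  let _ : Algebra L[X] L⟮t⟯ := φ.toRingHom.toAlgebra
  have hal : ∀ P : L[X], algebraMap L[X] L⟮t⟯ P = φ P := fun P => rfl
  have hfs : FaithfulSMul L[X] L⟮t⟯ := by
    rw [faithfulSMul_iff_algebraMap_injective]
    intro P Q h
    rw [hal, hal] at h
    have h1 := congrArg (fun z : L⟮t⟯ => (z : N)) h
    simp only [hφ] at h1
    rw [← sub_eq_zero] at h1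
    rw [← map_sub] at h1
    exact sub_eq_zero.1 (hinj _ h1)
  have hfr : IsFractionRing L[X] L⟮t⟯ := by
    apply IsFractionRing.of_field
    intro z
    obtain ⟨r, s, h⟩ := (mem_adjoin_simple_iff L (z : N)).1 z.2
    refine ⟨r, s, Subtype.ext ?_⟩
    rw [h]
    change _ = ((algebraMap L[X] L⟮t⟯ r / algebraMap L[X] L⟮t⟯ s : L⟮t⟯) : N)
    rw [hal, hal, IntermediateField.coe_div, hφ, hφ]
  let _ : Algebra L[X] N := ((aeval t : L[X] →ₐ[L] N) : L[X] →+* N).toAlgebra
  have : IsScalarTower L[X] L⟮t⟯ N := IsScalarTower.of_algebraMap_eq fun P => (hφ P).symm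
  obtain ⟨Q, hQ0, hQ⟩ := (IsFractionRing.isAlgebraic_iff L[X] L⟮t⟯ N (x := g)).2 hg
  refine ⟨Q, hQ0, ?_⟩
  rw [aevalAeval_eq_eval₂]
  exact hQ

end

end Pool.Agent.Q79.CB
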