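import Pool.Agent.Q79.CB.Conic2
import Pool.Agent.Y246.C3.Cb

/-! # The third intersection map on a conic bundle, odd degree -/

set_option autoImplicit false

namespace Pool.Agent.Q79.CB

open MvPolynomial Pool.Agent.TH314.PD Pool.Agent.Y201.C3 Pool.Agent.Y246.C3

noncomputable section

theorem cb2 (T : Fin 6 → Fin 6 → Fin 6 → ℂ) (hT : SymT T) (hL : LineT T)
    (hV : ∀ V : Fin 3 → MvPolynomial (Fin 4) ℂ, ∑ i, ∑ j, V i * cm T yy i j * V j = 0 → V = 0)
    (M : Type) [Field M] [Algebra ℂ M] (htr : Algebra.trdeg ℂ M = 4)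
    (x : Fin 6 → M) (hx : Bf T x x x = 0)
    (hq : ∀ (e : ℕ) (H : MvPolynomial (Fin 4) ℂ), H.IsHomogeneous e →
      aeval (![x 2, x 3, x 4, x 5] : Fin 4 → M) H = 0 → H = 0)
    (hrat : Odd (Module.finrank (ratioField x) M))
    (lam : Fin 6 → M) (hlam : lam ≠ 0) (hlam2 : ∀ i : Fin 6, 2 ≤ i.val → lam i = 0) :
      Bf T lam lam x ≠ 0 ∧
      Odd (Module.finrank (ratioField fun i => Bf T lam lam x * x i - Bf T lam x x * lam i) M) := by
  obtain ⟨q, hqd⟩ : ∃ q : Fin 4 → M, q = ![x 2, x 3, x 4, x 5] := ⟨_, rfl⟩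
  rw [← hqd] at hq
  have q0 : q 0 = x 2 := by rw [hqd]; rfl
  have q1 : q 1 = x 3 := by rw [hqd]; rfl
  have q2 : q 2 = x 4 := by rw [hqd]; rfl
  have q3 : q 3 = x 5 := by rw [hqd]; rfl
  have hq3 : q 3 ≠ 0 := by
    intro h0
    exact X_ne_zero (3 : Fin 4) (hq 1 (X 3) (isHomogeneous_X _ _) (by rw [aeval_X]; exact h0))
  have hx5 : x 5 ≠ 0 := q3 ▸ hq3
  have hy0 : ym q 0 = 0 := rfl
  have hy1 : ym q 1 = 0 := rfl
  have hxy : ∀ i : Fin 6, 2 ≤ i.val → x i = x 5 * ym q i := by
    intro i hi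
    fin_cases i
    · exact absurd hi (by decide)
    · exact absurd hi (by decide)
    · change x 2 = x 5 * (q 0 / q 3)
      rw [q0, q3, mul_div_cancel₀ _ hx5]
    · change x 3 = x 5 * (q 1 / q 3)
      rw [q1, q3, mul_div_cancel₀ _ hx5]
    · change x 4 = x 5 * (q 2 / q 3)
      rw [q2, q3, mul_div_cancel₀ _ hx5]
    · change x 5 = x 5 * (q 3 / q 3)
      rw [q3, mul_div_cancel₀ _ hx5]
  have han : ∀ W : Fin 3 → M, (∀ i, W i ∈ ratioField q) → qf (cm T (ym q)) W = 0 → W = 0 :=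
    fun W hW h0 => aniso hT hV q hq hq3 W hW h0
  -- the conic over the field of ratios
  let yK : Fin 6 → ratioField q := fun i => ⟨ym q i, ym_mem q i⟩
  have hA : ∀ i j, algebraMap (ratioField q) M (cm T yK i j) = cm T (ym q) i j := fun i j =>
    cm_map (ratioField q).val yK i j
  have hchar : CharZero (ratioField q) :=
    charZero_of_injective_algebraMap (algebraMap ℂ (ratioField q)).injective
  have hanK : ∀ w : Fin 3 → ratioField q, ∑ i, ∑ j, w i * cm T yK i j * w j = 0 → w = 0 := by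
    intro w hw
    have h1 : (ratioField q).val (qf (cm T yK) w) = 0 := by
      change (ratioField q).val (∑ i, ∑ j, w i * cm T yK i j * w j) = 0
      rw [hw, map_zero]
    rw [qf_cm_map] at h1
    have h2 := han (fun i => (w i : M)) (fun i => (w i).2) h1
    funext i
    exact Subtype.ext (congrFun h2 i)
  have hgen : Odd (Module.finrank (IntermediateField.adjoin (ratioField q)
      {z : M | ∃ i j, z = (![x 0, x 1, x 5] : Fin 3 → M) i /
        (![x 0, x 1, x 5] : Fin 3 → M) j}) M) := by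
    have h1 := fields q hq3 x 1 one_ne_zero (by rw [q0, one_mul]) (by rw [q1, one_mul])
      (by rw [q2, one_mul]) (by rw [q3, one_mul])
    rw [← h1] at hrat
    exact hrat
  have hiso : ∑ i, ∑ j, (![x 0, x 1, x 5] : Fin 3 → M) i *
      algebraMap (ratioField q) M (cm T yK i j) * (![x 0, x 1, x 5] : Fin 3 → M) j = 0 := by
    simp only [hA]
    exact isotropic hT hL (ym q) x hy0 hy1 hxy hx5 hx
  obtain ⟨c1, c2⟩ := conic2 (ratioField q) M (cm T yK) (cm_symm yK) hanK (not_alg htr q hq3)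
    ![x 0, x 1, x 5] hiso hgen
  -- the vector `lam`
  have hlE : lam = fun i => lam 0 * E 0 i + lam 1 * E 1 i := by
    have h1 := decomp (M := M) (fun _ => 0) lam rfl rfl (fun i hi => by rw [hlam2 i hi, mul_zero])
    funext i
    have h2 := congrFun h1 i
    change lam i = lam 0 * E 0 i + (lam 1 * E 1 i + lam 5 * 0) at h2
    rw [mul_zero, add_zero] at h2
    exact h2
  have e000 : Bf T (E 0 : Fin 6 → M) (E 0) (E 0) = 0 := Bf_E0 hL (by decide) (by decide) (by decide)
  have e001 : Bf T (E 0 : Fin 6 → M) (E 0) (E 1) = 0 := Bf_E0 hL (by decide) (by decide) (by decide)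
  have e010 : Bf T (E 0 : Fin 6 → M) (E 1) (E 0) = 0 := Bf_E0 hL (by decide) (by decide) (by decide)
  have e011 : Bf T (E 0 : Fin 6 → M) (E 1) (E 1) = 0 := Bf_E0 hL (by decide) (by decide) (by decide)
  have e100 : Bf T (E 1 : Fin 6 → M) (E 0) (E 0) = 0 := Bf_E0 hL (by decide) (by decide) (by decide)
  have e101 : Bf T (E 1 : Fin 6 → M) (E 0) (E 1) = 0 := Bf_E0 hL (by decide) (by decide) (by decide)
  have e110 : Bf T (E 1 : Fin 6 → M) (E 1) (E 0) = 0 := Bf_E0 hL (by decide) (by decide) (by decide)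
  have e111 : Bf T (E 1 : Fin 6 → M) (E 1) (E 1) = 0 := Bf_E0 hL (by decide) (by decide) (by decide)
  have hlll : Bf T lam lam lam = 0 := by
    rw [hlE]
    simp only [Bf_add1, Bf_add2 hT, Bf_add3 hT, Bf_smul1, Bf_smul2 hT, Bf_smul3 hT, e000, e001,
      e010, e011, e100, e101, e110, e111, mul_zero, add_zero]
  have hgl : ∀ a b : M, Bf T (fun i => a * E 0 i + b * E 1 i) (fun i => a * E 0 i + b * E 1 i) x =
      x 5 * (a ^ 2 * Bf T (E 0) (E 0) (ym q) +
      2 * a * b * Bf T (E 0) (E 1) (ym q) + b ^ 2 * Bf T (E 1) (E 1) (ym q)) := by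
    intro a b
    have hxd := decomp (ym q) x hy0 hy1 hxy
    have hxd' : x = fun i => x 0 * E 0 i + (x 1 * E 1 i + x 5 * ym q i) := hxd
    conv_lhs => rw [hxd']
    simp only [Bf_add1, Bf_add2 hT, Bf_add3 hT, Bf_smul1, Bf_smul2 hT, Bf_smul3 hT, e000, e001,
      e010, e011, e100, e101, e110, e111, mul_zero, add_zero, zero_add]
    rw [Bf_comm12 hT (E 1) (E 0) (ym q)]
    ring
  have hllx := hgl (lam 0) (lam 1)
  rw [← hlE] at hllx
  have hm0 : (0 : M) ∈ ratioField q := zero_mem _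
  have hm1 : (1 : M) ∈ ratioField q := one_mem _
  have hqf0 : ∀ a b : M, qf (cm T (ym q)) ![a, b, 0] = 3 * (a ^ 2 * Bf T (E 0) (E 0) (ym q) +
      2 * a * b * Bf T (E 0) (E 1) (ym q) + b ^ 2 * Bf T (E 1) (E 1) (ym q)) := by
    intro a b
    rw [qf_cm]
    simp only [Matrix.cons_val_zero, Matrix.cons_val_one, Matrix.cons_val_two, Matrix.head_cons,
      Matrix.tail_cons]
    ring
  have hiso2 : ∀ a b : M, a ∈ ratioField q → b ∈ ratioField q →
      a ^ 2 * Bf T (E 0) (E 0) (ym q) + 2 * a * b * Bf T (E 0) (E 1) (ym q) +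
        b ^ 2 * Bf T (E 1) (E 1) (ym q) = 0 → a = 0 ∧ b = 0 := by
    intro a b ha hb hab
    have h1 := han ![a, b, 0] (by
      intro i
      fin_cases i
      · exact ha
      · exact hb
      · exact hm0) (by rw [hqf0, hab, mul_zero])
    exact ⟨congrFun h1 0, congrFun h1 1⟩
  have hb11 : Bf T (E 1) (E 1) (ym q) ≠ 0 := by
    intro h0
    have := hiso2 0 1 hm0 hm1 (by rw [h0]; ring)
    exact one_ne_zero this.2
  have hb00 : Bf T (E 0) (E 0) (ym q) ≠ 0 := by
    intro h0
    have := hiso2 1 0 hm1 hm0 (by rw [h0]; ring)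
    exact one_ne_zero this.1
  have hκ : Bf T lam lam x ≠ 0 := by
    intro hk
    rw [hllx] at hk
    have hk' := (mul_eq_zero.1 hk).resolve_left hx5
    have hl0 : lam 0 ≠ 0 := by
      intro h0
      rw [h0] at hk'
      have h1 : lam 1 ^ 2 * Bf T (E 1) (E 1) (ym q) = 0 := by linear_combination hk'
      have h2 : lam 1 = 0 := by
        have := (mul_eq_zero.1 h1).resolve_right hb11
        exact pow_eq_zero_iff (two_ne_zero) |>.1 this
      apply hlam
      rw [hlE, h0, h2]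
      funext i
      simp
    set ρ : M := lam 1 / lam 0 with hρ
    have hρ0 : Bf T (E 1) (E 1) (ym q) * ρ ^ 2 + 2 * Bf T (E 0) (E 1) (ym q) * ρ +
        Bf T (E 0) (E 0) (ym q) = 0 := by
      rw [hρ]
      field_simp
      linear_combination hk'
    have e1 : algebraMap (ratioField q) M (Bf T (E 1) (E 1) yK) = Bf T (E 1) (E 1) (ym q) := by
      have := Bf_map (T := T) (ratioField q).val (E 1) (E 1) yK
      rw [E_map] at this
      exact this
    have e2 : algebraMap (ratioField q) M (Bf T (E 0) (E 1) yK) = Bf T (E 0) (E 1) (ym q) := by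
      have := Bf_map (T := T) (ratioField q).val (E 0) (E 1) yK
      rw [E_map, E_map] at this
      exact this
    have e3 : algebraMap (ratioField q) M (Bf T (E 0) (E 0) yK) = Bf T (E 0) (E 0) (ym q) := by
      have := Bf_map (T := T) (ratioField q).val (E 0) (E 0) yK
      rw [E_map] at this
      exact this
    obtain ⟨a, ha⟩ := c1 ρ ⟨2 * Bf T (E 0) (E 1) yK / Bf T (E 1) (E 1) yK,
      Bf T (E 0) (E 0) yK / Bf T (E 1) (E 1) yK, by
        rw [map_div₀, map_div₀, map_mul, e1, e2, e3, map_ofNat]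
        field_simp
        linear_combination hρ0⟩
    have hρm : ρ ∈ ratioField q := by
      rw [ha]
      exact a.2
    have := hiso2 1 ρ hm1 hρm (by linear_combination hρ0)
    exact one_ne_zero this.1
  refine ⟨hκ, ?_⟩
  set κ : M := Bf T lam lam x with hκd
  set β : M := Bf T lam x x with hβ
  obtain ⟨x', hx'⟩ : ∃ x' : Fin 6 → M, x' = fun i => κ * x i - β * lam i := ⟨_, rfl⟩
  rw [← hx']
  have hx'2 : ∀ i : Fin 6, 2 ≤ i.val → x' i = κ * x i := by
    intro i hi
    rw [hx']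
    simp only
    rw [hlam2 i hi, mul_zero, sub_zero]
  have hx'5 : x' 5 ≠ 0 := by
    rw [hx'2 5 (by decide)]
    exact mul_ne_zero hκ hx5
  have hx'y : ∀ i : Fin 6, 2 ≤ i.val → x' i = x' 5 * ym q i := by
    intro i hi
    rw [hx'2 i hi, hx'2 5 (by decide), hxy i hi]
    ring
  have hB' : Bf T x' x' x' = 0 := by
    have e : x' = fun i => κ * x i + (-β) * lam i := by
      rw [hx']
      funext i
      ring
    rw [e]
    simp only [Bf_add1, Bf_add2 hT, Bf_add3 hT, Bf_smul1, Bf_smul2 hT, Bf_smul3 hT]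
    rw [hx, hlll, Bf_comm23 hT x x lam, Bf_comm12 hT x lam x, ← hβ, Bf_comm12 hT x lam lam,
      Bf_comm23 hT lam x lam, ← hκd]
    ring
  have hfin := c2 ![x' 0, x' 1, x' 5] (by
    intro h0
    exact hx'5 (congrFun h0 2)) (by
    simp only [hA]
    exact isotropic hT hL (ym q) x' hy0 hy1 hx'y hx'5 hB')
  have hfe := fields q hq3 x' κ hκ (by rw [q0, hx'2 2 (by decide)])
    (by rw [q1, hx'2 3 (by decide)]) (by rw [q2, hx'2 4 (by decide)])
    (by rw [q3, hx'2 5 (by decide)])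
  rw [← hfe]
  exact hfin

end

end Pool.Agent.Q79.CB
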