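import Pool.Agent.H952R2.Sextic.CommonZero
import Pool.Agent.Y201.LI.Thm3

/-! # Generic points of smooth cubic fourfolds -/

set_option autoImplicit false

namespace Pool.Agent.Q79.CB

open MvPolynomial Pool.Agent.TH314.PD Pool.Agent.Y201.C3 Pool.Agent.Y960.C3 Algebra

noncomputable section

theorem unit_of_const {σ : Type} (G A B : MvPolynomial σ ℂ) (hG0 : G ≠ 0) (d : ℕ)
    (hGd : G.IsHomogeneous d) (hAB : A * B = G) (hB : constantCoeff B ≠ 0) : IsUnit B := by
  let φ : MvPolynomial σ ℂ →ₐ[ℂ] Polynomial (MvPolynomial σ ℂ) :=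
    aeval (fun j => Polynomial.X * Polynomial.C (X j))
  have hφG : φ G = Polynomial.X ^ d * Polynomial.C G := by
    change aeval (fun j => Polynomial.X * Polynomial.C (X j)) G = _
    rw [aeval_smul_form hGd]
    congr 1
    have h1 : (aeval (fun j => (Polynomial.C (X j) : Polynomial (MvPolynomial σ ℂ))) :
        MvPolynomial σ ℂ →ₐ[ℂ] Polynomial (MvPolynomial σ ℂ)) =
        IsScalarTower.toAlgHom ℂ (MvPolynomial σ ℂ) (Polynomial (MvPolynomial σ ℂ)) := by
      apply MvPolynomial.algHom_ext
      intro j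
      rw [aeval_X]
      rfl
    rw [h1]
    rfl
  -- the value at `T = 0`
  have h0 : ∀ P : MvPolynomial σ ℂ, (φ P).eval 0 = C (constantCoeff P) := by
    intro P
    induction P using MvPolynomial.induction_on with
    | C a =>
      change ((aeval _ (C a) : Polynomial (MvPolynomial σ ℂ))).eval 0 = _
      rw [aeval_C, constantCoeff_C]
      change (Polynomial.C (C a)).eval 0 = _
      rw [Polynomial.eval_C]
    | add p q hp hq => rw [map_add, Polynomial.eval_add, hp, hq, map_add, map_add]
    | mul_X p i hp =>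
      rw [map_mul, Polynomial.eval_mul, hp, map_mul, map_mul, constantCoeff_X, map_zero, mul_zero]
      change _ * ((aeval _ (X i) : Polynomial (MvPolynomial σ ℂ))).eval 0 = _
      rw [aeval_X, Polynomial.eval_mul, Polynomial.eval_X, zero_mul, mul_zero]
  have h1 : ∀ P : MvPolynomial σ ℂ, (φ P).eval 1 = P := by
    intro P
    induction P using MvPolynomial.induction_on with
    | C a =>
      change ((aeval _ (C a) : Polynomial (MvPolynomial σ ℂ))).eval 1 = _
      rw [aeval_C]
      change (Polynomial.C (C a)).eval 1 = _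
      rw [Polynomial.eval_C]
    | add p q hp hq => rw [map_add, Polynomial.eval_add, hp, hq]
    | mul_X p i hp =>
      rw [map_mul, Polynomial.eval_mul, hp]
      change _ * ((aeval _ (X i) : Polynomial (MvPolynomial σ ℂ))).eval 1 = _
      rw [aeval_X, Polynomial.eval_mul, Polynomial.eval_X, Polynomial.eval_C, one_mul]
  have hC : (C (constantCoeff B) : MvPolynomial σ ℂ) ≠ 0 := by
    rwa [Ne, C_eq_zero]
  have hXB : ¬ Polynomial.X ∣ φ B := by
    rw [Polynomial.X_dvd_iff, Polynomial.coeff_zero_eq_eval_zero, h0]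
    exact hC
  have hdvd : Polynomial.X ^ d ∣ φ A * φ B := by
    rw [← map_mul, hAB, hφG]
    exact Dvd.intro _ rfl
  have hdvd2 : Polynomial.X ^ d ∣ φ A :=
    Polynomial.prime_X.pow_dvd_of_dvd_mul_right d hXB hdvd
  obtain ⟨A', hA'⟩ := hdvd2
  have h2 : A' * φ B = Polynomial.C G := by
    have h3 : Polynomial.X ^ d * (A' * φ B) = Polynomial.X ^ d * Polynomial.C G := by
      rw [← mul_assoc, ← hA', ← map_mul, hAB, hφG]
    exact mul_left_cancel₀ (pow_ne_zero d Polynomial.X_ne_zero) h3
  have h3 : A' ≠ 0 ∧ φ B ≠ 0 := by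
    constructor
    · rintro rfl
      rw [zero_mul] at h2
      exact hG0 (Polynomial.C_eq_zero.1 h2.symm)
    · intro h
      rw [h, mul_zero] at h2
      exact hG0 (Polynomial.C_eq_zero.1 h2.symm)
  have h4 := Polynomial.natDegree_mul h3.1 h3.2
  rw [h2, Polynomial.natDegree_C] at h4
  have h5 : (φ B).natDegree = 0 := by omega
  obtain ⟨c, hc⟩ := Polynomial.natDegree_eq_zero.1 h5
  have h6 := h0 B
  have h7 := h1 B
  rw [← hc, Polynomial.eval_C] at h6 h7
  rw [← h7, h6]
  exact (Ne.isUnit hB).map C

/-- smooth hypersurfaces of positive dimension are irreducible -/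
theorem irreducible_smooth {n d : ℕ} (hn : 1 ≤ n) (hd : 1 ≤ d) (F : MvPolynomial (Fin (n + 2)) ℂ)
    (hF : F.IsHomogeneous d)
    (hsm : ∀ z : Fin (n + 2) → ℂ, (∀ i, eval z (pderiv i F) = 0) → z = 0) : Irreducible F := by
  classical
  have hF0 : F ≠ 0 := by
    rintro rfl
    have h1 := hsm 1 (fun i => by rw [map_zero, map_zero])
    exact one_ne_zero h1
  have hFc : constantCoeff F = 0 := by
    rw [constantCoeff_eq]
    by_contra h
    have h1 := hF h
    simp only [map_zero] at h1
    omega
  refine ⟨?_, ?_⟩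
  · intro hu
    have h1 := hu.map (constantCoeff (σ := Fin (n + 2)) (R := ℂ))
    rw [hFc] at h1
    exact not_isUnit_zero h1
  · intro A B hAB
    by_contra hcon
    push Not at hcon
    obtain ⟨hA, hB⟩ := hcon
    have hB0 : constantCoeff B = 0 := by
      by_contra h
      exact hB (unit_of_const F A B hF0 d hF hAB.symm h)
    have hA0 : constantCoeff A = 0 := by
      by_contra h
      exact hA (unit_of_const F B A hF0 d hF (by rw [mul_comm]; exact hAB.symm) h)
    obtain ⟨z, hz0, hz⟩ := Pool.Agent.H952R2.Sextic.exists_common_zero (K := ℂ)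
      (ι := Fin (n + 2)) (κ := Fin 2) (by simp; omega) ![A, B] (by
        intro k
        fin_cases k
        · change eval 0 A = 0
          rw [← hA0, eval_zero]
        · change eval 0 B = 0
          rw [← hB0, eval_zero])
    have hzA : eval z A = 0 := hz 0
    have hzB : eval z B = 0 := hz 1
    apply hz0
    apply hsm
    intro i
    rw [hAB, pderiv_mul, map_add, map_mul, map_mul, hzA, hzB, zero_mul, mul_zero, add_zero]

/-- a point of a smooth cubic fourfold over a field of transcendence degree four is generic if the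
field is finite over the field of ratios -/
theorem generic_of_finite (F : MvPolynomial (Fin 6) ℂ) (hF : F.IsHomogeneous 3)
    (hsm : ∀ z : Fin 6 → ℂ, (∀ i, eval z (pderiv i F) = 0) → z = 0)
    {M : Type} [Field M] [Algebra ℂ M] (htr : Algebra.trdeg ℂ M = 4) (x : Fin 6 → M)
    (hx : aeval x F = 0) (hfin : FiniteDimensional (ratioField x) M) :
    ∀ (e : ℕ) (H : MvPolynomial (Fin 6) ℂ), H.IsHomogeneous e → aeval x H = 0 → F ∣ H := by
  classical
  have hirr : Irreducible F := irreducible_smooth (n := 4) (by norm_num) (by norm_num) F hF hsm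
  have hprime : ∀ (a b : ℕ) (A B : MvPolynomial (Fin 6) ℂ), A.IsHomogeneous a →
      B.IsHomogeneous b → F ∣ A * B → F ∣ A ∨ F ∣ B := fun _ _ A B _ _ h =>
    hirr.prime.dvd_or_dvd h
  have hxj : ∃ j, x j ≠ 0 := by
    by_contra hcon
    push Not at hcon
    have h1 : ratioField x = ⊥ := by
      rw [eq_bot_iff]
      unfold ratioField
      rw [IntermediateField.adjoin_le_iff]
      rintro _ ⟨a, b, rfl⟩
      rw [hcon a, zero_div]
      exact zero_mem _
    rw [h1] at hfin
    have h2 : Algebra.IsAlgebraic (⊥ : IntermediateField ℂ M) M := inferInstance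
    have h3 : Algebra.IsAlgebraic ℂ M := by
      have : Algebra.IsAlgebraic ℂ (⊥ : IntermediateField ℂ M) :=
        (IntermediateField.botEquiv ℂ M).symm.isAlgebraic
      exact Algebra.IsAlgebraic.trans ℂ (⊥ : IntermediateField ℂ M) M
    have h4 : Algebra.trdeg ℂ M = 0 := trdeg_eq_zero
    rw [htr] at h4
    norm_num at h4
  obtain ⟨j, hj⟩ := hxj
  obtain ⟨ζ, hζ⟩ := exists_zeta htr x j hj hfin
  intro e H hH h0
  refine dom_of_indep (n := 4) hF (by norm_num) hirr.ne_zero hprime (aeval x)
    (Fin.cons j ζ : Fin 5 → Fin 6) hx ?_ hH h0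
  intro l A hA hA0
  rw [aeval_rename] at hA0
  refine no_form (fun l => x (ζ l) / x j) hζ (x j) hj l A hA ?_
  rw [← hA0]
  congr 2
  funext i
  refine Fin.cases ?_ (fun l => ?_) i
  · rw [Fin.cons_zero, mul_one]
    rfl
  · rw [Fin.cons_succ]
    change x j * (x (ζ l) / x j) = x (ζ l)
    field_simp

end

end Pool.Agent.Q79.CB
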