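import Pool.Agent.Q79.CB.Cb2
import Pool.Agent.Q79.CB.Generic
import Pool.Agent.Q79.C3.Fin
import Pool.Agent.Y201.LI.Cases2

/-! # Third points on a line and families of conics, odd degree -/

set_option autoImplicit false

namespace Pool.Agent.Q79.CB

open MvPolynomial Pool.Agent.TH314.PD Pool.Agent.Y201.C3 Pool.Agent.Y201.LI

noncomputable section

/-- the third intersection point of the line through `x` and a point of the line `⟨p, q⟩` -/
theorem third_odd
    {T : Fin 6 → Fin 6 → Fin 6 → ℂ} (hT : SymT T) (hS : SmoothT T)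
    {M : Type} [Field M] [Algebra ℂ M] (htr : Algebra.trdeg ℂ M = 4)
    (x : Fin 6 → M) (hx : Bf T x x x = 0)
    (hforms : ∀ (e : ℕ) (H : MvPolynomial (Fin 6) ℂ), H.IsHomogeneous e → aeval x H = 0 →
      frm T ∣ H)
    (hRR : Odd (Module.finrank (ratioField x) M))
    (lam : Fin 6 → M) (hl0 : lam ≠ 0)
    (p q : Fin 6 → ℂ) (a b : M)
    (hlam : ∀ i, lam i = a * algebraMap ℂ M (p i) + b * algebraMap ℂ M (q i))
    (hline : ∀ i j k : Fin 2, Bf T (![p, q] i) (![p, q] j) (![p, q] k) = 0)
    (hind : LinearIndependent ℂ ![p, q])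
    (hN : ∀ y : Fin 6 → ℂ, LinearIndependent ℂ ![p, q, y] → ∃ i j k : Fin 3,
      Bf T ((![p, q, y] : Fin 3 → Fin 6 → ℂ) i) ((![p, q, y] : Fin 3 → Fin 6 → ℂ) j)
        ((![p, q, y] : Fin 3 → Fin 6 → ℂ) k) ≠ 0) :
    Bf T lam lam x ≠ 0 ∧ Odd (Module.finrank (ratioField fun i => Bf T lam lam x * x i -
        Bf T lam x x * lam i) M) := by
  obtain ⟨P, N, hPN, hNP, hP0, hP1⟩ := exists_mat p q hind
  have hT' : SymT (comp T P) := comp_sym hT P
  have hS' := smooth_co hT hS P N hPN hNP
  have hN' := noplane_co2 hT P N hPN hP0 hP1 hN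
  have hL' : LineT (comp T P) := by
    intro i j k hi hj hk
    have hrow : ∀ i : Fin 6, i.val < 2 → ∃ i' : Fin 2, P i = ![p, q] i' := by
      intro i hi
      have : i = 0 ∨ i = 1 := by omega
      rcases this with rfl | rfl
      · exact ⟨0, hP0⟩
      · exact ⟨1, hP1⟩
    obtain ⟨i', hi'⟩ := hrow i hi
    obtain ⟨j', hj'⟩ := hrow j hj
    obtain ⟨k', hk'⟩ := hrow k hk
    have := hline i' j' k'
    rw [← hi', ← hj', ← hk'] at this
    exact this
  have hani := Pool.Agent.Q79.C3.ani2 (comp T P) hT' hS' hL' hN'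
  have hxc : co P (co N x) = x := co_co N P hNP x
  have hforms' := forms_co hT P N hPN x hforms
  have hF0 : ∀ T' : Fin 6 → Fin 6 → Fin 6 → ℂ, SymT T' → SmoothT T' → frm T' ≠ 0 := by
    intro T' h1 h2 h
    have h3 := degree_pos h1 h2
    rw [h] at h3
    simp at h3
  have hb : ∃ b, x b ≠ 0 := by
    by_contra hcon
    push Not at hcon
    have h2 : aeval x (X 0 : MvPolynomial (Fin 6) ℂ) = 0 := by rw [aeval_X, hcon]
    have h3 := eq_zero_of_dvd (frm_hom T) (hF0 T hT hS) (isHomogeneous_X ℂ (0 : Fin 6))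
      (by norm_num) (hforms 1 _ (isHomogeneous_X _ _) h2)
    exact X_ne_zero _ h3
  have hRR' : Odd (Module.finrank (ratioField (co N x)) M) := by
    rw [ratio_co P N hPN hNP x hb]
    exact hRR
  have hlam' : co P (co N lam) = lam := co_co N P hNP lam
  have hlamN : co N lam = fun i => if i = 0 then a else if i = 1 then b else 0 := by
    have h1 : co P (fun i => if i = 0 then a else if i = 1 then b else 0) = lam := by
      funext j
      unfold co
      have h01 : P 0 j = p j := by rw [hP0]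
      have h11 : P 1 j = q j := by rw [hP1]
      rw [hlam j, Fin.sum_univ_succ, Fin.sum_univ_succ, Finset.sum_eq_zero]
      · have h12 : (Fin.succ 0 : Fin 6) = 1 := rfl
        rw [h12, h01, h11]
        simp
      · intro i _
        have e1 : (i.succ.succ : Fin 6) ≠ 0 := Fin.succ_ne_zero _
        have e2 : (i.succ.succ : Fin 6) ≠ 1 := by
          intro h
          have := congrArg Fin.val h
          simp at this
        simp only [if_neg e1, if_neg e2, zero_mul]
    rw [← h1, co_co P N hPN]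
  obtain ⟨hk, hodd⟩ := cb2 (comp T P) hT' hL' hani M htr (co N x) (by
      rw [Bf_co hT, hxc, hx])
    (forms_last hT' hS' (co N x) hforms') hRR' (co N lam) (by
      intro h
      apply hl0
      rw [← hlam', h, co_zero])
    (by
      intro i hi
      rw [hlamN]
      have e1 : i ≠ 0 := by
        rintro rfl
        simp at hi
      have e2 : i ≠ 1 := by
        rintro rfl
        simp at hi
      simp only [if_neg e1, if_neg e2])
  rw [Bf_co hT, hxc, hlam'] at hk
  have h8 : (fun i => Bf (comp T P) (co N lam) (co N lam) (co N x) * co N x i -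
      Bf (comp T P) (co N lam) (co N x) (co N x) * co N lam i) =
      co N (fun i => Bf T lam lam x * x i - Bf T lam x x * lam i) := by
    funext j
    rw [Bf_co hT, Bf_co hT, hxc, hlam']
    unfold co
    simp only [sub_mul, Finset.sum_sub_distrib, Finset.mul_sum, mul_assoc]
  rw [h8] at hodd
  have hx'b : ∃ b, (fun i => Bf T lam lam x * x i - Bf T lam x x * lam i) b ≠ 0 := by
    by_contra hcon
    push Not at hcon
    have h9 : co N x 5 ≠ 0 := by
      intro h
      have h2 : aeval (co N x) (X 5 : MvPolynomial (Fin 6) ℂ) = 0 := by rw [aeval_X, h]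
      have h3 := eq_zero_of_dvd (frm_hom _) (hF0 _ hT' hS') (isHomogeneous_X ℂ (5 : Fin 6))
        (by norm_num) (hforms' 1 _ (isHomogeneous_X _ _) h2)
      exact X_ne_zero _ h3
    have h10 := congrFun h8 5
    have h11 : (fun i => Bf T lam lam x * x i - Bf T lam x x * lam i) = 0 := funext hcon
    rw [h11, co_zero, Pi.zero_apply] at h10
    have h12 : co N lam 5 = 0 := by
      rw [hlamN]
      simp
    rw [h12, mul_zero, sub_zero, Bf_co hT, hxc, hlam'] at h10
    exact mul_ne_zero hk h9 h10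
  rw [ratio_co P N hPN hNP _ hx'b] at hodd
  exact ⟨hk, hodd⟩

/-- a family of conics which start on the line `⟨p, q⟩` has even degree -/
theorem conic_odd
    {T : Fin 6 → Fin 6 → Fin 6 → ℂ} (hT : SymT T) (hS : SmoothT T)
    (hLF : LineFree (frm T))
    {M : Type} [Field M] [Algebra ℂ M] (htr : Algebra.trdeg ℂ M = 4)
    (x : Fin 6 → M) (hx : Bf T x x x = 0)
    (hforms : ∀ (e : ℕ) (H : MvPolynomial (Fin 6) ℂ), H.IsHomogeneous e → aeval x H = 0 →
      frm T ∣ H)
    (hRR : Odd (Module.finrank (ratioField x) M))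
    (L : IntermediateField ℂ M) (t : M) (ht : Transcendental L t)
    (lam Q Cc : Fin 6 → M) (hl : ∀ i, lam i ∈ L) (hQ : ∀ i, Q i ∈ L) (hC : ∀ i, Cc i ∈ L)
    (hexp : x = fun i => t ^ 2 * lam i + t * Q i + Cc i)
    (p q : Fin 6 → ℂ) (a b : M)
    (hlam : ∀ i, lam i = a * algebraMap ℂ M (p i) + b * algebraMap ℂ M (q i))
    (hline : ∀ i j k : Fin 2, Bf T (![p, q] i) (![p, q] j) (![p, q] k) = 0)
    (hind : LinearIndependent ℂ ![p, q])
    (hN : ∀ y : Fin 6 → ℂ, LinearIndependent ℂ ![p, q, y] → ∃ i j k : Fin 3,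
      Bf T ((![p, q, y] : Fin 3 → Fin 6 → ℂ) i) ((![p, q, y] : Fin 3 → Fin 6 → ℂ) j)
        ((![p, q, y] : Fin 3 → Fin 6 → ℂ) k) ≠ 0) : False := by
  obtain ⟨h6, u, w, hu, hw, huw, hz⟩ := linear_case hT L t ht lam Q Cc hl hQ hC x hx hexp
  by_cases hl0 : lam = 0
  · refine hLF M htr L t ht Q Cc hQ hC ?_ ?_
    · rw [aeval_frm]
      have h1 : (fun i => t * Q i + Cc i) = x := by
        rw [hexp]
        funext i
        rw [hl0, Pi.zero_apply, mul_zero, zero_add]
      rw [h1, hx]
    · have h1 : (fun i => t * Q i + Cc i) = x := by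
        rw [hexp]
        funext i
        rw [hl0, Pi.zero_apply, mul_zero, zero_add]
      rw [h1]
      exact hRR
  · have key := (third_odd hT hS htr x hx hforms hRR lam hl0 p q a b hlam hline hind hN).2
    rw [huw] at key
    refine hLF M htr L t ht u w hu hw ?_ key
    rw [aeval_frm]
    exact hz

/-- a family of conics which start at a fixed point has even degree -/
theorem conic_odd_point
    {T : Fin 6 → Fin 6 → Fin 6 → ℂ} (hT : SymT T) (hS : SmoothT T)
    (hLF : LineFree (frm T))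
    {M : Type} [Field M] [Algebra ℂ M] (htr : Algebra.trdeg ℂ M = 4)
    (x : Fin 6 → M) (hx : Bf T x x x = 0)
    (hforms : ∀ (e : ℕ) (H : MvPolynomial (Fin 6) ℂ), H.IsHomogeneous e → aeval x H = 0 →
      frm T ∣ H)
    (hRR : Odd (Module.finrank (ratioField x) M))
    (L : IntermediateField ℂ M) (t : M) (ht : Transcendental L t)
    (lam Q Cc : Fin 6 → M) (hl : ∀ i, lam i ∈ L) (hQ : ∀ i, Q i ∈ L) (hC : ∀ i, Cc i ∈ L)
    (hexp : x = fun i => t ^ 2 * lam i + t * Q i + Cc i)
    (p : Fin 6 → ℂ) (hpp : Bf T p p p = 0) (a : M)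
    (hlam : ∀ i, lam i = a * algebraMap ℂ M (p i)) : False := by
  obtain ⟨h6, u, w, hu, hw, huw, hz⟩ := linear_case hT L t ht lam Q Cc hl hQ hC x hx hexp
  by_cases hl0 : lam = 0
  · refine hLF M htr L t ht Q Cc hQ hC ?_ ?_
    · rw [aeval_frm]
      have h1 : (fun i => t * Q i + Cc i) = x := by
        rw [hexp]
        funext i
        rw [hl0, Pi.zero_apply, mul_zero, zero_add]
      rw [h1, hx]
    · have h1 : (fun i => t * Q i + Cc i) = x := by
        rw [hexp]
        funext i
        rw [hl0, Pi.zero_apply, mul_zero, zero_add]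
      rw [h1]
      exact hRR
  · have ha : a ≠ 0 := by
      rintro rfl
      apply hl0
      funext i
      rw [hlam, zero_mul]
      rfl
    have hp : p ≠ 0 := by
      rintro rfl
      apply hl0
      funext i
      rw [hlam, Pi.zero_apply, map_zero, mul_zero]
      rfl
    have key : Odd (Module.finrank (ratioField fun i => Bf T lam lam x * x i -
        Bf T lam x x * lam i) M) := by
      rw [point_case hT hS x hx hforms p hp hpp a ha lam hlam]
      exact hRR
    rw [huw] at key
    refine hLF M htr L t ht u w hu hw ?_ key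
    rw [aeval_frm]
    exact hz

/-- change of the parameter -/
theorem change_param {M : Type} [Field M] [Algebra ℂ M] (L : IntermediateField ℂ M) (t : M)
    (ht : Transcendental L t) (A B C : Fin 6 → L) (τ : L) :
    Transcendental L (t - (τ : M))⁻¹ ∧
    (fun i => t ^ 2 * (A i : M) + t * (B i : M) + (C i : M)) = fun i => (t - (τ : M)) ^ 2 *
      (((t - (τ : M))⁻¹) ^ 2 * ((τ ^ 2 * A i + τ * B i + C i : L) : M) +
        (t - (τ : M))⁻¹ * ((2 * τ * A i + B i : L) : M) + (A i : M)) := by
  have h1 : Transcendental L (t - (τ : M)) := by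
    intro h
    apply ht
    have h2 : t = (t - (τ : M)) + algebraMap L M τ := by
      change t = (t - (τ : M)) + (τ : M)
      ring
    rw [h2]
    exact h.add (isAlgebraic_algebraMap _)
  have h0 : t - (τ : M) ≠ 0 := by
    intro h
    rw [h] at h1
    exact h1 isAlgebraic_zero
  refine ⟨fun h => h1 ?_, ?_⟩
  · have := h.inv
    rwa [inv_inv] at this
  · funext i
    have e1 : ((τ ^ 2 * A i + τ * B i + C i : L) : M) =
        (τ : M) ^ 2 * (A i : M) + (τ : M) * (B i : M) + (C i : M) := rfl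
    have e2 : ((2 * τ * A i + B i : L) : M) = 2 * (τ : M) * (A i : M) + (B i : M) := rfl
    rw [e1, e2]
    field_simp
    ring

theorem odd_smul {M : Type} [Field M] [Algebra ℂ M] (c : M) (hc : c ≠ 0) (x y : Fin 6 → M)
    (hxy : y = fun i => c * x i) (h : Odd (Module.finrank (ratioField y) M)) :
    Odd (Module.finrank (ratioField x) M) := by
  rw [hxy, ratio_smul c hc] at h
  exact h

/-- the trilinear form vanishes on a line contained in the cubic -/
theorem line_tri {T : Fin 6 → Fin 6 → Fin 6 → ℂ} (hT : SymT T) (p q : Fin 6 → ℂ)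
    (h : ∀ a b : ℂ, eval (a • p + b • q) (frm T) = 0) (i j k : Fin 2) :
    Bf T ((![p, q] : Fin 2 → Fin 6 → ℂ) i) ((![p, q] : Fin 2 → Fin 6 → ℂ) j)
      ((![p, q] : Fin 2 → Fin 6 → ℂ) k) = 0 := by
  have h1 : ∀ a b : ℂ, a ^ 3 * Bg T p p p + 3 * a ^ 2 * b * Bg T p p q + 3 * a * b ^ 2 * Bg T p q q +
      b ^ 3 * Bg T q q q = 0 := by
    intro a b
    have h2 := h a b
    have h3 : aeval (a • p + b • q) (frm T) = Bg T (fun i => a * p i + b * q i)
      (fun i => a * p i + b * q i) (fun i => a * p i + b * q i) := aeval_frm T _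
    have h4 : eval (a • p + b • q) (frm T) = aeval (a • p + b • q) (frm T) := by
      rw [← aeval_eq_eval]
    rw [h4, h3] at h2
    simp only [Bg_add1, Bg_add2, Bg_add3, Bg_smul1, Bg_smul2, Bg_smul3] at h2
    rw [swap13 hT q p p, Bg_swap23 hT p q p, Bg_swap12 hT q p q, swap13 hT q q p] at h2
    linear_combination h2
  have e1 := h1 1 0
  have e2 := h1 0 1
  have e3 := h1 1 1
  have e4 := h1 1 (-1)
  have f1 : Bg T p p p = 0 := by linear_combination e1
  have f4 : Bg T q q q = 0 := by linear_combination e2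
  have f2 : Bg T p p q = 0 := by linear_combination (1 / 6 : ℂ) * e3 - (1 / 6 : ℂ) * e4 - (1 / 3 : ℂ) * f4
  have f3 : Bg T p q q = 0 := by linear_combination (1 / 6 : ℂ) * e3 + (1 / 6 : ℂ) * e4 - (1 / 3 : ℂ) * f1
  fin_cases i <;> fin_cases j <;> fin_cases k
  · exact f1
  · exact f2
  · change Bg T p q p = 0
    rw [Bg_swap23 hT]
    exact f2
  · exact f3
  · change Bg T q p p = 0
    rw [swap13 hT]
    exact f2
  · change Bg T q p q = 0
    rw [Bg_swap12 hT]
    exact f3
  · change Bg T q q p = 0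
    rw [swap13 hT]
    exact f3
  · exact f4

/-- the trilinear form does not vanish on a plane which is not contained in the cubic -/
theorem plane_tri {T : Fin 6 → Fin 6 → Fin 6 → ℂ} (hT : SymT T) (v : Fin 3 → Fin 6 → ℂ)
    (h : ∃ c : Fin 3 → ℂ, eval (∑ i, c i • v i) (frm T) ≠ 0) :
    ∃ i j k : Fin 3, Bf T (v i) (v j) (v k) ≠ 0 := by
  by_contra hcon
  push Not at hcon
  obtain ⟨c, hc⟩ := h
  apply hc
  have h4 : eval (∑ i, c i • v i) (frm T) = aeval (∑ i, c i • v i) (frm T) := by
    rw [← aeval_eq_eval]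
  rw [h4]
  have h1 : aeval (∑ i, c i • v i) (frm T) =
      Bg T (∑ i, c i • v i) (∑ i, c i • v i) (∑ i, c i • v i) := aeval_frm T _
  rw [h1]
  have h2 : (∑ i, c i • v i) = fun j => ∑ i, c i * v i j := by
    funext j
    rw [Finset.sum_apply]
    rfl
  rw [h2, Bg_sum1]
  refine Finset.sum_eq_zero fun a _ => ?_
  rw [Bg_smul1, Bg_sum2 hT]
  rw [Finset.sum_eq_zero, mul_zero]
  intro b _
  rw [Bg_smul2, Bg_sum3 hT]
  rw [Finset.sum_eq_zero, mul_zero]
  intro d _
  rw [Bg_smul3]
  have := hcon a b d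
  rw [Bf_eq] at this
  rw [this, mul_zero]

/-- the polars -/
theorem polar_tri {T : Fin 6 → Fin 6 → Fin 6 → ℂ} (hT : SymT T) {M : Type} [Field M] [Algebra ℂ M]
    (x l : Fin 6 → M) : ∑ i, x i * aeval l (pderiv i (frm T)) = 3 * Bf T x l l := by
  have h1 : ∀ i, aeval l (pderiv i (frm T)) = 3 * Bg T (fun j => if j = i then 1 else 0) l l :=
    fun i => pderiv_frmG hT i l
  have h2 : x = fun j => ∑ i, x i * (if j = i then (1 : M) else 0) := by
    funext j
    rw [Finset.sum_eq_single j]
    · rw [if_pos rfl, mul_one]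
    · intro b _ hb
      rw [if_neg (Ne.symm hb), mul_zero]
    · intro h
      exact absurd (Finset.mem_univ _) h
  have h3 : Bf T x l l = ∑ i, x i * Bg T (fun j => if j = i then 1 else 0) l l := by
    conv_lhs => rw [Bf_eq, h2, Bg_sum1]
    refine Finset.sum_congr rfl fun i _ => ?_
    rw [Bg_smul1]
  rw [h3, Finset.mul_sum]
  refine Finset.sum_congr rfl fun i _ => ?_
  rw [h1]
  ring

end

end Pool.Agent.Q79.CB
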