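import Pool.Agent.Q79.CB.Core3

/-! # Rational curves over lines: descent on the conic bundle of a line -/

set_option autoImplicit false

namespace Pool.Agent.Q79.CB

open Polynomial Pool.Agent.TH314.PD Pool.Agent.Y201.C3 Pool.Agent.Y201.LI

noncomputable section

section alg

variable {R : Type} [CommRing R] [Algebra ℂ R] {T : Fin 6 → Fin 6 → Fin 6 → ℂ}

/-- a point of the line -/
def lin (p q : Fin 6 → ℂ) (a b : R) : Fin 6 → R :=
  fun i => a * algebraMap ℂ R (p i) + b * algebraMap ℂ R (q i)

theorem lin_zero (p q : Fin 6 → ℂ)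
    (hline : ∀ i j k : Fin 2, Bf T ((![p, q] : Fin 2 → Fin 6 → ℂ) i)
      ((![p, q] : Fin 2 → Fin 6 → ℂ) j) ((![p, q] : Fin 2 → Fin 6 → ℂ) k) = 0)
    (a b c d e f : R) : Bg T (lin p q a b) (lin p q c d) (lin p q e f) = 0 := by
  have h : ∀ i j k : Fin 2, Bg T (fun l => algebraMap ℂ R ((![p, q] : Fin 2 → Fin 6 → ℂ) i l))
      (fun l => algebraMap ℂ R ((![p, q] : Fin 2 → Fin 6 → ℂ) j l))
      (fun l => algebraMap ℂ R ((![p, q] : Fin 2 → Fin 6 → ℂ) k l)) = 0 := by
    intro i j k
    rw [Bg_alg, ← Bf_eq, hline, map_zero]
  have h000 := h 0 0 0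
  have h001 := h 0 0 1
  have h010 := h 0 1 0
  have h011 := h 0 1 1
  have h100 := h 1 0 0
  have h101 := h 1 0 1
  have h110 := h 1 1 0
  have h111 := h 1 1 1
  simp only [Matrix.cons_val_zero, Matrix.cons_val_one] at h000 h001 h010 h011 h100 h101 h110 h111
  unfold lin
  simp only [Bg_add1, Bg_add2, Bg_add3, Bg_smul1, Bg_smul2, Bg_smul3]
  rw [h000, h001, h010, h011, h100, h101, h110, h111]
  ring

end alg

section deg

variable {K : Type} [Field K] [Algebra ℂ K] {T : Fin 6 → Fin 6 → Fin 6 → ℂ}

theorem natDegree_Bg (x y z : Fin 6 → K[X]) (a b c : ℕ) (hx : ∀ i, (x i).natDegree ≤ a)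
    (hy : ∀ i, (y i).natDegree ≤ b) (hz : ∀ i, (z i).natDegree ≤ c) :
    (Bg T x y z).natDegree ≤ a + b + c := by
  unfold Bg
  refine natDegree_sum_le_of_forall_le _ _ fun i _ => natDegree_sum_le_of_forall_le _ _
    fun j _ => natDegree_sum_le_of_forall_le _ _ fun k _ => ?_
  have h1 : (algebraMap ℂ K[X] (T i j k)).natDegree = 0 := by
    rw [IsScalarTower.algebraMap_apply ℂ K K[X]]
    exact natDegree_C _
  refine natDegree_mul_le.trans (add_le_add (natDegree_mul_le.trans (add_le_add
    (natDegree_mul_le.trans ?_) (hy j))) (hz k))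
  rw [h1, zero_add]
  exact hx i

theorem natDegree_lin (p q : Fin 6 → ℂ) (a b : K[X]) (m : ℕ) (ha : a.natDegree ≤ m)
    (hb : b.natDegree ≤ m) (i : Fin 6) : (lin p q a b i).natDegree ≤ m := by
  unfold lin
  have h1 : ∀ c : ℂ, (algebraMap ℂ K[X] c).natDegree = 0 := by
    intro c
    rw [IsScalarTower.algebraMap_apply ℂ K K[X]]
    exact natDegree_C _
  refine natDegree_add_le_of_degree_le (natDegree_mul_le.trans ?_) (natDegree_mul_le.trans ?_)
  · rw [h1]
    omega
  · rw [h1]
    omega

end deg

section change

variable {M : Type} [Field M] [Algebra ℂ M] (L : IntermediateField ℂ M)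

/-- the polynomial in the new variable -/
def rf (c : L) (N : ℕ) (f : L[X]) : L[X] := reflect N (taylor c f)

theorem aeval_rf (t : M) (c : L) (hc : t - (c : M) ≠ 0) (N : ℕ) (f : L[X])
    (hf : f.natDegree ≤ N) :
    aeval t f = (t - (c : M)) ^ N * aeval (t - (c : M))⁻¹ (rf L c N f) := by
  let _ : Invertible (t - (c : M)) := invertibleOfNonzero hc
  have h1 := eval₂_reflect_mul_pow (algebraMap L M) (t - (c : M)) N (taylor c f) (by
    rw [natDegree_taylor]
    exact hf)
  rw [invOf_eq_inv] at h1
  have h3 : aeval (t - (c : M)) (X + C c : L[X]) = t := by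
    rw [map_add, aeval_X, aeval_C]
    change t - (c : M) + (c : M) = t
    ring
  have h2 : aeval (t - (c : M)) (taylor c f) = aeval t f := by
    rw [taylor_apply, aeval_comp, h3]
  rw [← h2, aeval_def, ← h1, mul_comm]
  rfl

theorem natDegree_rf (c : L) (N : ℕ) (f : L[X]) (hf : f.natDegree ≤ N) :
    (rf L c N f).natDegree ≤ N := by
  unfold rf
  refine natDegree_reflect_le.trans ?_
  rw [natDegree_taylor]
  exact max_le le_rfl hf

theorem coeff_rf (c : L) (N : ℕ) (f : L[X]) : (rf L c N f).coeff N = f.eval c := by
  unfold rf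
  rw [coeff_reflect, revAt_le le_rfl, Nat.sub_self, taylor_coeff_zero]

end change

section main

variable {M : Type} [Field M] [Algebra ℂ M] (L : IntermediateField ℂ M)

/-- the vector of polynomials -/
def vec (p q : Fin 6 → ℂ) (V W g : L[X]) (y z : Fin 6 → L) : Fin 6 → L[X] :=
  fun i => lin p q V W i + g * (X * C (y i) + C (z i))

theorem aeval_lin (t : M) (p q : Fin 6 → ℂ) (V W : L[X]) (i : Fin 6) :
    aeval t (lin p q V W i) = lin p q (aeval t V) (aeval t W) i := by
  unfold lin
  have h : ∀ c : ℂ, aeval t (algebraMap ℂ L[X] c) = algebraMap ℂ M c := by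
    intro c
    rw [IsScalarTower.algebraMap_apply ℂ L L[X]]
    change aeval t (C (algebraMap ℂ L c)) = _
    rw [aeval_C, ← IsScalarTower.algebraMap_apply]
  rw [map_add, map_mul, map_mul, h, h]

theorem aeval_vec (t : M) (p q : Fin 6 → ℂ) (V W g : L[X]) (y z : Fin 6 → L) (i : Fin 6) :
    aeval t (vec L p q V W g y z i) = lin p q (aeval t V) (aeval t W) i +
      aeval t g * (t * (y i : M) + (z i : M)) := by
  unfold vec
  rw [map_add, aeval_lin, map_mul, map_add, map_mul, aeval_X, aeval_C, aeval_C]
  rfl

theorem aeval_Bg {T : Fin 6 → Fin 6 → Fin 6 → ℂ} (t : M) (x y z : Fin 6 → L[X]) :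
    aeval t (Bg T x y z) = Bg T (fun i => aeval t (x i)) (fun i => aeval t (y i))
      (fun i => aeval t (z i)) :=
  map_Bg ((aeval t : L[X] →ₐ[L] M).restrictScalars ℂ) T x y z

/-- the algebra of one step of the descent -/
theorem step_alg {R : Type} [CommRing R] [IsDomain R] [Algebra ℂ R]
    {T : Fin 6 → Fin 6 → Fin 6 → ℂ} (hT : SymT T) (l u : Fin 6 → R) (g : R) (hg : g ≠ 0)
    (hl : Bg T l l l = 0)
    (hF : Bg T (fun i => l i + g * u i) (fun i => l i + g * u i) (fun i => l i + g * u i) = 0)
    (G : R) (hG : 3 * G = 3 * Bg T l u u + g * Bg T u u u) :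
    3 * Bg T l l u = -(g * (3 * G)) ∧
    (∀ i, 3 * (Bg T l l (fun i => l i + g * u i) * (l i + g * u i) -
      Bg T l (fun i => l i + g * u i) (fun i => l i + g * u i) * l i) =
      -(g ^ 3) * (3 * G * u i - Bg T u u u * l i)) := by
  have e1 : 3 * Bg T l l u = -(g * (3 * G)) := by
    simp only [Bg_add1, Bg_add2, Bg_add3, Bg_smul1, Bg_smul2, Bg_smul3] at hF
    rw [hl, swap13 hT u l l, Bg_swap23 hT l u l, Bg_swap12 hT u l u, swap13 hT u u l] at hF
    have h1 : g * (3 * Bg T l l u + g * (3 * G)) = 0 := by
      rw [hG]
      linear_combination hF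
    have h2 := (mul_eq_zero.1 h1).resolve_left hg
    linear_combination h2
  refine ⟨e1, fun i => ?_⟩
  simp only [Bg_add2, Bg_add3, Bg_smul2, Bg_smul3]
  rw [hl, Bg_swap23 hT l u l]
  linear_combination (g * l i + g ^ 2 * u i - 2 * g * l i) * e1 + (g ^ 2 * l i) * hG

theorem div_deg {K : Type} [Field K] (V g : K[X]) (m : ℕ) (hV : V.natDegree ≤ m + 1 + 1)
    (hg : g.natDegree = m + 1) : ∃ a r : K[X], V = g * a + r ∧ a.natDegree ≤ 1 ∧
      r.natDegree ≤ m := by
  have hgd : g.natDegree ≠ 0 := by omega
  have h1 := natDegree_mod_lt V hgd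
  have h2 : g * (V / g) + V % g = V := EuclideanDomain.div_add_mod V g
  refine ⟨V / g, V % g, h2.symm, ?_, by omega⟩
  by_cases h0 : V / g = 0
  · rw [h0, natDegree_zero]
    omega
  · have hg0 : g ≠ 0 := by
      rintro rfl
      rw [natDegree_zero] at hgd
      omega
    have h3 : (g * (V / g)).natDegree = g.natDegree + (V / g).natDegree := natDegree_mul hg0 h0
    have h4 : g * (V / g) = V - V % g := eq_sub_of_add_eq h2
    have h5 : (V - V % g).natDegree ≤ m + 2 := by
      refine (natDegree_sub_le _ _).trans (max_le hV (by omega))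
    rw [← h4] at h5
    omega

/-- **Descent.** -/
theorem descent {T : Fin 6 → Fin 6 → Fin 6 → ℂ} (hT : SymT T) (hS : SmoothT T)
    (hLF : LineFree (frm T)) (htr : Algebra.trdeg ℂ M = 4)
    (hgen : ∀ x : Fin 6 → M, Bf T x x x = 0 → FiniteDimensional (ratioField x) M →
      ∀ (e : ℕ) (H : MvPolynomial (Fin 6) ℂ), H.IsHomogeneous e → MvPolynomial.aeval x H = 0 →
        frm T ∣ H)
    (p q : Fin 6 → ℂ)
    (hline : ∀ i j k : Fin 2, Bf T ((![p, q] : Fin 2 → Fin 6 → ℂ) i)
      ((![p, q] : Fin 2 → Fin 6 → ℂ) j) ((![p, q] : Fin 2 → Fin 6 → ℂ) k) = 0)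
    (hind : LinearIndependent ℂ ![p, q])
    (hN : ∀ y : Fin 6 → ℂ, LinearIndependent ℂ ![p, q, y] → ∃ i j k : Fin 3,
      Bf T ((![p, q, y] : Fin 3 → Fin 6 → ℂ) i) ((![p, q, y] : Fin 3 → Fin 6 → ℂ) j)
        ((![p, q, y] : Fin 3 → Fin 6 → ℂ) k) ≠ 0) :
    ∀ (m : ℕ) (t : M), Transcendental L t → ∀ (V W g : L[X]) (y z : Fin 6 → L),
      V.natDegree ≤ m + 1 → W.natDegree ≤ m + 1 → g.natDegree ≤ m → g ≠ 0 →
      Bf T (fun i => aeval t (vec L p q V W g y z i)) (fun i => aeval t (vec L p q V W g y z i))
        (fun i => aeval t (vec L p q V W g y z i)) = 0 →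
      Odd (Module.finrank (ratioField fun i => aeval t (vec L p q V W g y z i)) M) → False := by
  classical
  -- vectors which are linear in the parameter
  have hlin : ∀ (t : M), Transcendental L t → ∀ x : Fin 6 → M,
      (∃ u w : Fin 6 → M, (∀ i, u i ∈ L) ∧ (∀ i, w i ∈ L) ∧ x = fun i => t * u i + w i) →
      Bf T x x x = 0 → Odd (Module.finrank (ratioField x) M) → False := by
    rintro t ht x ⟨u, w, hu, hw, rfl⟩ hx hodd
    exact hLF M htr L t ht u w hu hw (by rw [aeval_frm]; exact hx) hodd
  intro m
  induction m with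
  | zero =>
    intro t ht V W g y z hV hW hg hg0 hx hodd
    refine hlin t ht _ ⟨fun i => (V.coeff 1 : M) * algebraMap ℂ M (p i) +
      (W.coeff 1 : M) * algebraMap ℂ M (q i) + (g.coeff 0 : M) * (y i : M),
      fun i => (V.coeff 0 : M) * algebraMap ℂ M (p i) +
      (W.coeff 0 : M) * algebraMap ℂ M (q i) + (g.coeff 0 : M) * (z i : M), ?_, ?_, ?_⟩ hx hodd
    · intro i
      exact add_mem (add_mem (mul_mem (V.coeff 1).2 (L.algebraMap_mem _))
        (mul_mem (W.coeff 1).2 (L.algebraMap_mem _))) (mul_mem (g.coeff 0).2 (y i).2)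
    · intro i
      exact add_mem (add_mem (mul_mem (V.coeff 0).2 (L.algebraMap_mem _))
        (mul_mem (W.coeff 0).2 (L.algebraMap_mem _))) (mul_mem (g.coeff 0).2 (z i).2)
    · funext i
      have h1 : ∀ P : L[X], P.natDegree ≤ 0 + 1 → aeval t P = (P.coeff 1 : M) * t +
          (P.coeff 0 : M) := by
        intro P hP
        rw [eq_X_add_C_of_natDegree_le_one (by omega : P.natDegree ≤ 1)]
        simp only [map_add, map_mul, aeval_C, aeval_X]
        simp [coeff_X, coeff_C]
      have h2 : aeval t g = (g.coeff 0 : M) := by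
        rw [eq_C_of_natDegree_le_zero hg, aeval_C, coeff_C_zero]
        rfl
      rw [aeval_vec, h1 V hV, h1 W hW, h2]
      unfold lin
      ring
  | succ m ih =>
    -- the case of exact degree
    have main : ∀ (t : M), Transcendental L t → ∀ (V W g : L[X]) (y z : Fin 6 → L),
        V.natDegree ≤ m + 1 + 1 → W.natDegree ≤ m + 1 + 1 → g.natDegree = m + 1 →
        Bf T (fun i => aeval t (vec L p q V W g y z i))
          (fun i => aeval t (vec L p q V W g y z i))
          (fun i => aeval t (vec L p q V W g y z i)) = 0 →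
        Odd (Module.finrank (ratioField fun i => aeval t (vec L p q V W g y z i)) M) →
        False := by
      intro t ht V W g y z hV hW hg hx hodd
      have hinj : ∀ P : L[X], aeval t P = 0 → P = 0 := by
        intro P h
        by_contra hP
        exact ht ⟨P, hP, h⟩
      have hg0 : g ≠ 0 := by
        rintro rfl
        rw [natDegree_zero] at hg
        omega
      have hgd : g.natDegree ≠ 0 := by omega
      -- division
      obtain ⟨a, r, hVd, har, hrd⟩ := div_deg V g m hV hg
      obtain ⟨b, s, hWd, hbs, hsd⟩ := div_deg W g m hW hg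
      set l : Fin 6 → L[X] := lin p q r s with hl
      set Y : Fin 6 → L[X] := fun i => X * C (y i) + C (z i) with hY
      set u : Fin 6 → L[X] := fun i => lin p q a b i + Y i with hu
      have hvec : vec L p q V W g y z = fun i => l i + g * u i := by
        funext i
        rw [hl, hu, hVd, hWd]
        unfold vec lin
        simp only [hY]
        ring
      have hF : Bg T (fun i => l i + g * u i) (fun i => l i + g * u i)
          (fun i => l i + g * u i) = 0 := by
        apply hinj
        rw [aeval_Bg]
        rw [hvec] at hx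
        exact hx
      have hlll : Bg T l l l = 0 := lin_zero p q hline _ _ _ _ _ _
      obtain ⟨Φ, hΦ⟩ : ∃ Φ, Φ = Bg T u u u := ⟨_, rfl⟩
      obtain ⟨G, hG⟩ : ∃ G : L[X], 3 * G = 3 * Bg T l u u + g * Bg T u u u := by
        refine ⟨Bg T l u u + algebraMap ℂ L[X] (1 / 3) * (g * Bg T u u u), ?_⟩
        have h3 : (3 : L[X]) * algebraMap ℂ L[X] (1 / 3) = 1 := by
          have h4 : algebraMap ℂ L[X] (3 * (1 / 3)) = 1 := by
            rw [show (3 : ℂ) * (1 / 3) = 1 by norm_num, map_one]
          rw [map_mul, map_ofNat] at h4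
          exact h4
        linear_combination (g * Bg T u u u) * h3
      obtain ⟨e1, e2⟩ := step_alg hT l u g hg0 hlll hF G hG
      rw [← hΦ] at hG e2
      -- degrees
      have hld : ∀ i, (l i).natDegree ≤ m := fun i => natDegree_lin p q r s m hrd hsd i
      have hYd : ∀ i, (Y i).natDegree ≤ 1 := by
        intro i
        simp only [hY]
        compute_degree
      have hud : ∀ i, (u i).natDegree ≤ 1 := fun i =>
        natDegree_add_le_of_degree_le (natDegree_lin p q a b 1 har hbs i) (hYd i)
      have hllY : Bg T l l u = Bg T l l Y := by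
        rw [hu, Bg_add3]
        rw [hl, lin_zero p q hline, zero_add]
      have hd1 : (Bg T l l Y).natDegree ≤ m + m + 1 := natDegree_Bg l l Y m m 1 hld hld hYd
      have h30 : (3 : L[X]) ≠ 0 := by norm_num
      have h3d : (3 : L[X]).natDegree = 0 := natDegree_ofNat _
      have hG3 : (3 * G).natDegree ≤ m := by
        by_cases h0 : 3 * G = 0
        · rw [h0, natDegree_zero]
          omega
        · have h1 : (g * (3 * G)).natDegree = g.natDegree + (3 * G).natDegree :=
            natDegree_mul hg0 h0
          have h2 : (g * (3 * G)).natDegree ≤ m + m + 1 := by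
            have h3 : g * (3 * G) = -(3 * Bg T l l Y) := by
              rw [← hllY, e1]
              ring
            rw [h3, natDegree_neg]
            refine natDegree_mul_le.trans ?_
            rw [h3d, zero_add]
            exact hd1
          omega
      have hΦd : Φ.natDegree ≤ 1 := by
        by_cases h0 : Φ = 0
        · rw [h0, natDegree_zero]
          omega
        · have h1 : (g * Φ).natDegree = g.natDegree + Φ.natDegree := natDegree_mul hg0 h0
          have h2 : (g * Φ).natDegree ≤ m + 2 := by
            have h3 : g * Φ = 3 * G - 3 * Bg T l u u := by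
              rw [hG]
              ring
            rw [h3]
            refine (natDegree_sub_le _ _).trans (max_le (by omega) ?_)
            refine natDegree_mul_le.trans ?_
            rw [h3d, zero_add]
            exact natDegree_Bg l u u m 1 1 hld hud hud
          omega
      -- the values
      set x : Fin 6 → M := fun i => aeval t (vec L p q V W g y z i) with hxd
      have hgt : aeval t g ≠ 0 := fun h => hg0 (hinj g h)
      have hxi : ∀ i, x i = aeval t (l i) + aeval t g * aeval t (u i) := by
        intro i
        rw [hxd]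
        simp only
        rw [hvec, map_add, map_mul]
      have hxe : x = fun i => aeval t (l i + g * u i) := by
        rw [hxd, hvec]
      by_cases hl0 : (fun i => aeval t (l i)) = 0
      · -- the vector is linear
        have hxu : x = fun i => aeval t g * aeval t (u i) := by
          funext i
          have h1 : aeval t (l i) = 0 := congrFun hl0 i
          rw [hxi, h1, zero_add]
        refine hlin t ht (fun i => aeval t (u i)) ?_ ?_
          (odd_smul (aeval t g) hgt _ _ hxu hodd)
        · refine ⟨fun i => (a.coeff 1 : M) * algebraMap ℂ M (p i) +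
            (b.coeff 1 : M) * algebraMap ℂ M (q i) + (y i : M),
            fun i => (a.coeff 0 : M) * algebraMap ℂ M (p i) +
            (b.coeff 0 : M) * algebraMap ℂ M (q i) + (z i : M), ?_, ?_, ?_⟩
          · intro i
            exact add_mem (add_mem (mul_mem (a.coeff 1).2 (L.algebraMap_mem _))
              (mul_mem (b.coeff 1).2 (L.algebraMap_mem _))) (y i).2
          · intro i
            exact add_mem (add_mem (mul_mem (a.coeff 0).2 (L.algebraMap_mem _))
              (mul_mem (b.coeff 0).2 (L.algebraMap_mem _))) (z i).2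
          · funext i
            have h1 : ∀ P : L[X], P.natDegree ≤ 1 → aeval t P = (P.coeff 1 : M) * t +
                (P.coeff 0 : M) := by
              intro P hP
              rw [eq_X_add_C_of_natDegree_le_one hP]
              simp only [map_add, map_mul, aeval_C, aeval_X]
              simp [coeff_X, coeff_C]
            simp only [hu, hY]
            rw [map_add, aeval_lin, h1 a har, h1 b hbs, map_add, map_mul, aeval_X, aeval_C,
              aeval_C]
            unfold lin
            change _ = _
            have e3 : ∀ c : L, algebraMap L M c = (c : M) := fun c => rfl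
            rw [e3, e3]
            ring
        · rw [hxu] at hx
          have h1 : Bg T (fun i => aeval t g * aeval t (u i)) (fun i => aeval t g * aeval t (u i))
            (fun i => aeval t g * aeval t (u i)) = 0 := hx
          rw [Bg_smul1, Bg_smul2, Bg_smul3] at h1
          rcases mul_eq_zero.1 h1 with h | h
          · exact absurd h hgt
          · rcases mul_eq_zero.1 h with h | h
            · exact absurd h hgt
            · exact (mul_eq_zero.1 h).resolve_left hgt
      · -- the third point
        have hfin : FiniteDimensional (ratioField x) M := Module.finite_of_finrank_pos hodd.pos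
        obtain ⟨hκ, ho⟩ := third_odd hT hS htr x hx (hgen x hx hfin) hodd
          (fun i => aeval t (l i)) hl0 p q (aeval t r) (aeval t s)
          (fun i => by rw [hl, aeval_lin]; rfl) hline hind hN
        have hκ' : Bf T (fun i => aeval t (l i)) (fun i => aeval t (l i)) x =
            aeval t (Bg T l l (fun i => l i + g * u i)) := by
          rw [aeval_Bg, Bf_eq, ← hxe]
        have hβ' : Bf T (fun i => aeval t (l i)) x x =
            aeval t (Bg T l (fun i => l i + g * u i) (fun i => l i + g * u i)) := by
          rw [aeval_Bg, Bf_eq, ← hxe]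
        have hG0 : 3 * G ≠ 0 := by
          intro h
          apply hκ
          rw [hκ', Bg_add3, Bg_smul3, hlll]
          have h1 : 3 * Bg T l l u = 0 := by rw [e1, h, mul_zero, neg_zero]
          have h2 : Bg T l l u = 0 := (mul_eq_zero.1 h1).resolve_left h30
          rw [h2]
          simp
        have hnew : ∀ i, vec L p q (3 * G * a - Φ * r) (3 * G * b - Φ * s) (3 * G) y z i =
            3 * G * u i - Φ * l i := by
          intro i
          simp only [hu, hl, hY]
          unfold vec lin
          ring
        have h3M : (3 : M) ≠ 0 := by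
          have h := (map_ne_zero (algebraMap ℂ M)).2 (show (3 : ℂ) ≠ 0 by norm_num)
          rwa [map_ofNat] at h
        have hc : -(aeval t g ^ 3) / 3 ≠ 0 :=
          div_ne_zero (neg_ne_zero.2 (pow_ne_zero 3 hgt)) h3M
        have hthird : (fun i => Bf T (fun i => aeval t (l i)) (fun i => aeval t (l i)) x * x i -
            Bf T (fun i => aeval t (l i)) x x * aeval t (l i)) =
            fun i => (-(aeval t g ^ 3) / 3) *
              aeval t (vec L p q (3 * G * a - Φ * r) (3 * G * b - Φ * s) (3 * G) y z i) := by
          funext i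
          have h1 := congrArg (aeval t) (e2 i)
          rw [hnew, hκ', hβ', hxi]
          simp only [map_mul, map_sub, map_neg, map_pow, map_add, map_ofNat] at h1 ⊢
          field_simp
          linear_combination h1
        rw [hthird] at ho
        refine ih t ht (3 * G * a - Φ * r) (3 * G * b - Φ * s) (3 * G) y z ?_ ?_ hG3 hG0 ?_
          (odd_smul _ hc _ _ rfl ho)
        · exact (natDegree_sub_le _ _).trans (max_le (natDegree_mul_le.trans (by omega))
            (natDegree_mul_le.trans (by omega)))
        · exact (natDegree_sub_le _ _).trans (max_le (natDegree_mul_le.trans (by omega))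
            (natDegree_mul_le.trans (by omega)))
        · have h1 := (third hT (fun i => aeval t (l i)) x (by
            rw [← aeval_Bg, hlll, map_zero]) hx _ rfl).1
          have h2 : (fun i => Bg T (fun i => aeval t (l i)) (fun i => aeval t (l i)) x * x i +
              (-Bg T (fun i => aeval t (l i)) x x) * aeval t (l i)) =
              fun i => (-(aeval t g ^ 3) / 3) *
              aeval t (vec L p q (3 * G * a - Φ * r) (3 * G * b - Φ * s) (3 * G) y z i) := by
            rw [← hthird]
            funext i
            rw [Bf_eq, Bf_eq]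
            ring
          rw [h2, Bg_smul1, Bg_smul2, Bg_smul3] at h1
          rcases mul_eq_zero.1 h1 with h | h
          · exact absurd h hc
          · rcases mul_eq_zero.1 h with h | h
            · exact absurd h hc
            · exact (mul_eq_zero.1 h).resolve_left hc
    intro t ht V W g y z hV hW hg hg0 hx hodd
    -- change of the parameter
    have : Infinite L := Infinite.of_injective _ (algebraMap ℂ L).injective
    obtain ⟨c, hc⟩ : ∃ c : L, g.eval c ≠ 0 := by
      by_contra hcon
      push Not at hcon
      apply hg0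
      apply Polynomial.funext
      intro c
      rw [hcon, eval_zero]
    obtain ⟨ht', -⟩ := change_param L t ht y y y c
    have hne : t - (c : M) ≠ 0 := by
      intro h
      rw [h, inv_zero] at ht'
      exact ht' isAlgebraic_zero
    have hgd : (rf L c (m + 1) g).natDegree = m + 1 := by
      apply le_antisymm (natDegree_rf L c (m + 1) g hg)
      apply le_natDegree_of_ne_zero
      rw [coeff_rf]
      exact hc
    have hxx : (fun i => aeval t (vec L p q V W g y z i)) = fun i => (t - (c : M)) ^ (m + 2) *
        aeval (t - (c : M))⁻¹ (vec L p q (rf L c (m + 2) V) (rf L c (m + 2) W)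
          (rf L c (m + 1) g) (fun i => c * y i + z i) y i) := by
      funext i
      rw [aeval_vec, aeval_vec, aeval_rf L t c hne (m + 2) V hV, aeval_rf L t c hne (m + 2) W hW,
        aeval_rf L t c hne (m + 1) g hg]
      unfold lin
      have e3 : ((c * y i + z i : L) : M) = (c : M) * (y i : M) + (z i : M) := rfl
      rw [e3]
      field_simp
      ring
    refine main (t - (c : M))⁻¹ ht' (rf L c (m + 2) V) (rf L c (m + 2) W) (rf L c (m + 1) g)
      (fun i => c * y i + z i) y (natDegree_rf L c (m + 2) V hV) (natDegree_rf L c (m + 2) W hW)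
      hgd ?_ (odd_smul _ (pow_ne_zero (m + 2) hne) _ _ hxx hodd)
    rw [hxx] at hx
    have h1 := hx
    rw [Bf_eq, Bg_smul1, Bg_smul2, Bg_smul3] at h1
    have hc' := pow_ne_zero (m + 2) hne
    rcases mul_eq_zero.1 h1 with h | h
    · exact absurd h hc'
    · rcases mul_eq_zero.1 h with h | h
      · exact absurd h hc'
      · exact (mul_eq_zero.1 h).resolve_left hc'

end main

end

end Pool.Agent.Q79.CB
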