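import Pool.Agent.Q79.CB.Bivar

/-! # Maps to conics without rational points: the parity of the degree -/

set_option autoImplicit false

namespace Pool.Agent.Q79.CB

open Polynomial IntermediateField

noncomputable section

section Rev

variable {L : Type} [Field L] (σ : L →+* L) (c : L) (p q : ℕ)

/-- the polynomial `T ^ p Y ^ q Q^σ (c / T, c / Y)` -/
def rev2 (Q : Polynomial (Polynomial L)) : Polynomial (Polynomial L) :=
  ∑ j ∈ Finset.range (q + 1), ∑ i ∈ Finset.range (p + 1),
    monomial (q - j) (monomial (p - i) (σ ((Q.coeff j).coeff i) * c ^ (i + j)))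

/-- the degrees are at most `p` and `q` -/
def Bd (Q : Polynomial (Polynomial L)) : Prop :=
  ∀ i j, (p < i ∨ q < j) → (Q.coeff j).coeff i = 0

theorem coeff_rev2 (Q : Polynomial (Polynomial L)) (a b : ℕ) (ha : a ≤ p) (hb : b ≤ q) :
    ((rev2 σ c p q Q).coeff b).coeff a =
      σ ((Q.coeff (q - b)).coeff (p - a)) * c ^ ((p - a) + (q - b)) := by
  unfold rev2
  rw [finsetSum_coeff, finsetSum_coeff, Finset.sum_eq_single (q - b)]
  · rw [finsetSum_coeff, finsetSum_coeff, Finset.sum_eq_single (p - a)]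
    · rw [coeff_monomial, if_pos (by omega), coeff_monomial, if_pos (by omega)]
    · intro i hi hia
      have h1 := Finset.mem_range.1 hi
      rw [coeff_monomial, if_pos (by omega), coeff_monomial, if_neg (by omega)]
    · intro h
      exact absurd (Finset.mem_range.2 (by omega)) h
  · intro j hj hjb
    have h1 := Finset.mem_range.1 hj
    rw [finsetSum_coeff, finsetSum_coeff]
    refine Finset.sum_eq_zero fun i _ => ?_
    rw [coeff_monomial, if_neg (by omega), coeff_zero]
  · intro h
    exact absurd (Finset.mem_range.2 (by omega)) h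

theorem bd_rev2 (Q : Polynomial (Polynomial L)) : Bd p q (rev2 σ c p q Q) := by
  intro a b hab
  unfold rev2
  rw [finsetSum_coeff, finsetSum_coeff]
  refine Finset.sum_eq_zero fun j _ => ?_
  rw [finsetSum_coeff, finsetSum_coeff]
  refine Finset.sum_eq_zero fun i _ => ?_
  rw [coeff_monomial]
  split_ifs with h1
  · rw [coeff_monomial, if_neg (by omega)]
  · rw [coeff_zero]

theorem rev2_CC_mul (u : L) (Q : Polynomial (Polynomial L)) :
    rev2 σ c p q (C (C u) * Q) = C (C (σ u)) * rev2 σ c p q Q := by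
  unfold rev2
  rw [Finset.mul_sum]
  refine Finset.sum_congr rfl fun j _ => ?_
  rw [Finset.mul_sum]
  refine Finset.sum_congr rfl fun i _ => ?_
  rw [coeff_C_mul, coeff_C_mul, C_mul_monomial, C_mul_monomial, map_mul σ, mul_assoc]

theorem rev2_rev2 (hσ : ∀ x, σ (σ x) = x) (hc : σ c = c) (Q : Polynomial (Polynomial L))
    (hQ : Bd p q Q) : rev2 σ c p q (rev2 σ c p q Q) = C (C (c ^ (p + q))) * Q := by
  ext b a
  rw [coeff_C_mul, coeff_C_mul]
  by_cases h : a ≤ p ∧ b ≤ q
  · obtain ⟨ha, hb⟩ := h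
    rw [coeff_rev2 σ c p q _ a b ha hb, coeff_rev2 σ c p q _ (p - a) (q - b) (by omega) (by omega)]
    rw [show p - (p - a) = a by omega, show q - (q - b) = b by omega, map_mul, map_pow, hσ, hc,
      mul_assoc, ← pow_add, show a + b + (p - a + (q - b)) = p + q by omega, mul_comm]
  · have h1 : p < a ∨ q < b := by
      by_contra hcon
      push Not at hcon
      exact h hcon
    rw [bd_rev2 σ c p q _ a b h1, hQ a b h1, mul_zero]

theorem expand (Q : Polynomial (Polynomial L)) (hQ : Bd p q Q) :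
    Q = ∑ j ∈ Finset.range (q + 1), ∑ i ∈ Finset.range (p + 1),
      monomial j (monomial i ((Q.coeff j).coeff i)) := by
  ext b a
  rw [finsetSum_coeff, finsetSum_coeff]
  by_cases h : a ≤ p ∧ b ≤ q
  · obtain ⟨ha, hb⟩ := h
    rw [Finset.sum_eq_single b]
    · rw [finsetSum_coeff, finsetSum_coeff, Finset.sum_eq_single a]
      · rw [coeff_monomial, if_pos rfl, coeff_monomial, if_pos rfl]
      · intro i _ hia
        rw [coeff_monomial, if_pos rfl, coeff_monomial, if_neg hia]
      · intro h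
        exact absurd (Finset.mem_range.2 (by omega)) h
    · intro j _ hj
      rw [finsetSum_coeff, finsetSum_coeff]
      refine Finset.sum_eq_zero fun i _ => ?_
      rw [coeff_monomial, if_neg hj, coeff_zero]
    · intro h
      exact absurd (Finset.mem_range.2 (by omega)) h
  · have h1 : p < a ∨ q < b := by
      by_contra hcon
      push Not at hcon
      exact h hcon
    rw [hQ a b h1]
    symm
    refine Finset.sum_eq_zero fun j hj => ?_
    rw [finsetSum_coeff, finsetSum_coeff]
    refine Finset.sum_eq_zero fun i hi => ?_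
    have h2 := Finset.mem_range.1 hj
    have h3 := Finset.mem_range.1 hi
    rw [coeff_monomial]
    split_ifs with h4
    · rw [coeff_monomial, if_neg (by omega)]
    · rw [coeff_zero]

theorem ev_monomial {N : Type} [Field N] [Algebra L N] (t g : N) (i j : ℕ) (r : L) :
    aevalAeval t g (monomial j (monomial i r) : Polynomial (Polynomial L)) =
      algebraMap L N r * t ^ i * g ^ j := by
  rw [aevalAeval_eq_eval₂, eval₂_monomial]
  congr 1
  change aeval t (monomial i r) = _
  rw [aeval_monomial]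

theorem ev_rev2 {N : Type} [Field N] [Algebra L N] (τ : N →+* N)
    (hτ : ∀ x, τ (algebraMap L N x) = algebraMap L N (σ x)) (t g : N) (ht : t ≠ 0) (hg : g ≠ 0)
    (hτt : τ t = algebraMap L N c / t) (hτg : τ g = algebraMap L N c / g)
    (Q : Polynomial (Polynomial L)) (hQ : Bd p q Q) :
    aevalAeval t g (rev2 σ c p q Q) = t ^ p * g ^ q * τ (aevalAeval t g Q) := by
  conv_rhs => rw [expand p q Q hQ]
  unfold rev2
  rw [map_sum, map_sum, map_sum, Finset.mul_sum]
  refine Finset.sum_congr rfl fun j hj => ?_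
  rw [map_sum, map_sum, map_sum, Finset.mul_sum]
  refine Finset.sum_congr rfl fun i hi => ?_
  have hj' := Finset.mem_range.1 hj
  have hi' := Finset.mem_range.1 hi
  rw [ev_monomial, ev_monomial, map_mul τ, map_mul τ, map_pow, map_pow, hτ, hτt, hτg, div_pow,
    div_pow, map_mul, map_pow, pow_add]
  have h1 : t ^ p = t ^ (p - i) * t ^ i := by rw [← pow_add]; congr 1; omega
  have h2 : g ^ q = g ^ (q - j) * g ^ j := by rw [← pow_add]; congr 1; omega
  rw [h1, h2]
  field_simp

end Rev

theorem bd_of (L : Type) [Field L] (Q : Polynomial (Polynomial L)) :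
    Bd (Bivariate.swap Q).natDegree Q.natDegree Q := by
  intro i j hij
  rcases hij with h | h
  · rw [← coeff_swap, coeff_eq_zero_of_natDegree_lt h, coeff_zero]
  · rw [coeff_eq_zero_of_natDegree_lt h, coeff_zero]

theorem natDegree_of_bd {L : Type} [Field L] {p q : ℕ} {Q : Polynomial (Polynomial L)}
    (h : Bd p q Q) : Q.natDegree ≤ q ∧ (Bivariate.swap Q).natDegree ≤ p := by
  constructor
  · rw [natDegree_le_iff_coeff_eq_zero]
    intro j hj
    ext i
    rw [h i j (Or.inr hj), coeff_zero]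
  · rw [natDegree_le_iff_coeff_eq_zero]
    intro i hi
    ext j
    rw [coeff_swap, h i j (Or.inl hi), coeff_zero]

/-- **Parity.** -/
theorem parity2 {L N : Type} [Field L] [Field N] [Algebra L N] (σ : L →+* L) (τ : N →+* N)
    (hσ : ∀ x, σ (σ x) = x) (hτ : ∀ x, τ (algebraMap L N x) = algebraMap L N (σ x))
    (c : L) (hc0 : c ≠ 0) (hc : σ c = c) (hnorm : ∀ u : L, u * σ u ≠ c)
    (t : N) (ht : Transcendental L t) (hodd : Odd (Module.finrank L⟮t⟯ N))
    (hτt : τ t = algebraMap L N c / t)
    (g : N) (hg : g * τ g = algebraMap L N c) :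
    Odd (Module.finrank L⟮g⟯ N) := by
  classical
  have ht0 : t ≠ 0 := by
    intro h
    exact ht (h ▸ isAlgebraic_zero)
  have hc0' : algebraMap L N c ≠ 0 := (_root_.map_ne_zero _).2 hc0
  have hg0 : g ≠ 0 := by
    rintro rfl
    rw [zero_mul] at hg
    exact hc0' hg.symm
  have hτg : τ g = algebraMap L N c / g := by
    rw [eq_div_iff hg0, mul_comm]
    exact hg
  have hfd : FiniteDimensional L⟮t⟯ N := by
    apply Module.finite_of_finrank_pos
    exact hodd.pos
  -- a relation
  obtain ⟨H, hHmem, hHp⟩ : ∃ H : Polynomial (Polynomial L), aevalAeval t g H = 0 ∧ Prime H := by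
    let I : Ideal (Polynomial (Polynomial L)) :=
      RingHom.ker ((aevalAeval t g : Polynomial (Polynomial L) →ₐ[L] N) :
        Polynomial (Polynomial L) →+* N)
    have hI : I.IsPrime := RingHom.ker_isPrime _
    have hI0 : I ≠ ⊥ := by
      intro hbot
      have hinj : ∀ Q : Polynomial (Polynomial L), aevalAeval t g Q = 0 → Q = 0 := by
        intro Q hQ
        have : Q ∈ I := hQ
        rw [hbot] at this
        exact this
      have h1 : IsAlgebraic L⟮t⟯ g := Algebra.IsAlgebraic.isAlgebraic g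
      obtain ⟨Q, hQ0, hQ⟩ := exists_rel t g ht h1
      exact hQ0 (hinj Q hQ)
    obtain ⟨H, h1, h2⟩ := hI.exists_mem_prime_of_ne_bot hI0
    exact ⟨H, h1, h2⟩
  have hirr : Irreducible H := hHp.irreducible
  obtain ⟨hint, hq, hdvd⟩ := deg_lemma t g ht H hirr hHmem
  set q := H.natDegree with hqd
  set p := (Bivariate.swap H).natDegree with hpd
  have hbd : Bd p q H := bd_of L H
  have hH'0 : aevalAeval t g (rev2 σ c p q H) = 0 := by
    rw [ev_rev2 σ c p q τ hτ t g ht0 hg0 hτt hτg H hbd, hHmem, map_zero, mul_zero]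
  obtain ⟨U, hU⟩ := hdvd _ hH'0
  have hrr := rev2_rev2 σ c p q hσ hc H hbd
  have hcp : c ^ (p + q) ≠ 0 := pow_ne_zero _ hc0
  have hH'ne : rev2 σ c p q H ≠ 0 := by
    intro h
    rw [h] at hrr
    have h1 : rev2 σ c p q (0 : Polynomial (Polynomial L)) = 0 := by
      unfold rev2
      simp
    rw [h1] at hrr
    have h2 : (C (C (c ^ (p + q))) : Polynomial (Polynomial L)) ≠ 0 := by
      rw [Ne, C_eq_zero, C_eq_zero]
      exact hcp
    exact mul_ne_zero h2 hirr.ne_zero hrr.symm
  have hU0 : U ≠ 0 := by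
    rintro rfl
    rw [mul_zero] at hU
    exact hH'ne hU
  obtain ⟨d1, d2⟩ := natDegree_of_bd (bd_rev2 σ c p q H)
  rw [hU] at d1 d2
  rw [natDegree_mul hirr.ne_zero hU0] at d1
  have hsw : ∀ Q : Polynomial (Polynomial L), Q ≠ 0 → Bivariate.swap Q ≠ 0 := by
    intro Q hQ h
    exact hQ ((map_eq_zero_iff _ (AlgEquiv.injective _)).1 h)
  rw [map_mul, natDegree_mul (hsw _ hirr.ne_zero) (hsw _ hU0)] at d2
  have hUd : U.natDegree = 0 := by omega
  have hUd2 : (Bivariate.swap U).natDegree = 0 := by omega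
  obtain ⟨u, rfl⟩ : ∃ u, U = C (C u) := by
    rw [eq_C_of_natDegree_eq_zero hUd] at hUd2
    rw [Bivariate.swap_C, natDegree_map] at hUd2
    refine ⟨(U.coeff 0).coeff 0, ?_⟩
    rw [← eq_C_of_natDegree_eq_zero hUd2]
    exact eq_C_of_natDegree_eq_zero hUd
  have hu0 : u ≠ 0 := by
    rintro rfl
    exact hU0 (by rw [C_0, C_0])
  have h4 : c ^ (p + q) = σ u * u := by
    have h5 : C (C (c ^ (p + q) - σ u * u)) * H = 0 := by
      rw [C_sub, C_sub, sub_mul, ← hrr, hU, mul_comm H, rev2_CC_mul, hU]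
      simp only [C_mul]
      ring
    rcases mul_eq_zero.1 h5 with h | h
    · rw [C_eq_zero, C_eq_zero, sub_eq_zero] at h
      exact h
    · exact absurd h hirr.ne_zero
  have heven : Even (p + q) := by
    by_contra hne
    rw [Nat.not_even_iff_odd] at hne
    obtain ⟨k, hk⟩ := hne
    apply hnorm (u / c ^ k)
    rw [map_div₀, map_pow, hc, div_mul_div_comm, ← pow_add]
    rw [div_eq_iff (pow_ne_zero _ hc0), mul_comm u, ← h4, hk]
    ring
  -- the tower over `t`
  have hqf : Module.finrank L⟮t⟯ L⟮t⟯⟮g⟯ = q := by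
    rw [adjoin.finrank hint, hq]
  have htow : Module.finrank L⟮t⟯ L⟮t⟯⟮g⟯ * Module.finrank L⟮t⟯⟮g⟯ N = Module.finrank L⟮t⟯ N :=
    Module.finrank_mul_finrank _ _ _
  rw [hqf] at htow
  rw [← htow, Nat.odd_mul] at hodd
  obtain ⟨hqo, hro⟩ := hodd
  have hpo : Odd p := by
    rw [Nat.even_add] at heven
    rw [← Nat.not_even_iff_odd] at hqo ⊢
    tauto
  -- `g` is transcendental
  have hgt : Transcendental L g := by
    intro halg
    obtain ⟨m, hm0, hm⟩ := halg
    have h5 : aevalAeval t g (m.map C) = 0 := by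
      have := Bivariate.aevalAeval_swap (R := L) g t (m.map C)
      rw [Bivariate.swap_map_C, aevalAeval_C] at this
      rw [← this, hm]
    obtain ⟨W, hW⟩ := hdvd _ h5
    have h6 := congrArg (fun R => Bivariate.swap R) hW
    simp only [Bivariate.swap_map_C, map_mul] at h6
    have hW0 : W ≠ 0 := by
      rintro rfl
      rw [mul_zero] at hW
      have h7 : m.map (C : L →+* L[X]) = 0 := hW
      rw [Polynomial.map_eq_zero_iff C_injective] at h7
      exact hm0 h7
    have h7 := congrArg natDegree h6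
    rw [natDegree_C, natDegree_mul (hsw _ hirr.ne_zero) (hsw _ hW0)] at h7
    have h8 : p = 0 := by omega
    rw [h8] at hpo
    exact absurd hpo (by decide)
  have hirr' : Irreducible (Bivariate.swap H) :=
    (MulEquiv.irreducible_iff (Bivariate.swap : Polynomial (Polynomial L) ≃ₐ[L] _)).2 hirr
  obtain ⟨hint', hp', -⟩ := deg_lemma g t hgt (Bivariate.swap H) hirr' (by
    rw [Bivariate.aevalAeval_swap, hHmem])
  have hpf : Module.finrank L⟮g⟯ L⟮g⟯⟮t⟯ = p := by
    rw [adjoin.finrank hint', hp']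
  have htow' : Module.finrank L⟮g⟯ L⟮g⟯⟮t⟯ * Module.finrank L⟮g⟯⟮t⟯ N = Module.finrank L⟮g⟯ N :=
    Module.finrank_mul_finrank _ _ _
  have hrr' : Module.finrank L⟮g⟯⟮t⟯ N = Module.finrank L⟮t⟯⟮g⟯ N := by
    have e1 : Module.finrank L⟮g⟯⟮t⟯ N = Module.finrank (L⟮g⟯⟮t⟯.restrictScalars L) N := rfl
    have e2 : Module.finrank L⟮t⟯⟮g⟯ N = Module.finrank (L⟮t⟯⟮g⟯.restrictScalars L) N := rfl
    rw [e1, e2, adjoin_simple_comm]
  rw [← htow', hpf, hrr', Nat.odd_mul]
  exact ⟨hpo, hro⟩

end

end Pool.Agent.Q79.CB
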