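import Pool.Agent.Q79.C3.Quad
import Pool.Agent.Q79.C3.Conic
import Pool.Agent.Q79.CB.Parity2

/-! # Maps of odd degree to a conic without rational points -/

set_option autoImplicit false

namespace Pool.Agent.Q79.CB

open Polynomial IntermediateField Pool.Agent.Q79.C3

open scoped QuadraticAlgebra

noncomputable section

theorem adjoin_sub {K M : Type} [Field K] [Field M] [Algebra K M] (S : Set M) (S1 : Set (adjoin K S))
    (h : Subtype.val '' S1 = S) : adjoin K S1 = ⊤ := by
  apply lift_injective (adjoin K S)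
  rw [lift_top, lift_adjoin, h]

theorem quad_const {K M : Type} [Field K] [CharZero K] [Field M] [Algebra K M] (K1 : IntermediateField K M)
    (hodd : Odd (Module.finrank K1 M))
    (hconst : ∀ z : K1, IsAlgebraic K z → ∃ b : K, z = algebraMap K K1 b)
    (z : M) (b d : K) (hz : z ^ 2 + algebraMap K M b * z + algebraMap K M d = 0) :
    ∃ k : K, z = algebraMap K M k := by
  have hfd : FiniteDimensional K1 M := Module.finite_of_finrank_pos hodd.pos
  have hint : IsIntegral K1 z := Algebra.IsIntegral.isIntegral z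
  have hroot : aeval z (X ^ 2 + C (algebraMap K K1 b) * X + C (algebraMap K K1 d) : K1[X]) = 0 := by
    simp only [map_add, map_mul, map_pow, aeval_X, aeval_C]
    rw [← IsScalarTower.algebraMap_apply, ← IsScalarTower.algebraMap_apply]
    exact hz
  have hne : (X ^ 2 + C (algebraMap K K1 b) * X + C (algebraMap K K1 d) : K1[X]) ≠ 0 := by
    intro h
    have h1 := congrArg (fun P => Polynomial.coeff P 2) h
    simp [coeff_X, coeff_C] at h1
  have hle : (minpoly K1 z).natDegree ≤ 2 := by
    refine (natDegree_le_of_dvd (minpoly.dvd _ _ hroot) hne).trans ?_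
    compute_degree
  have hfin : Module.finrank K1 K1⟮z⟯ ≤ 2 := by rw [adjoin.finrank hint]; exact hle
  have htow : Module.finrank K1 K1⟮z⟯ * Module.finrank K1⟮z⟯ M = Module.finrank K1 M :=
    Module.finrank_mul_finrank _ _ _
  rw [← htow, Nat.odd_mul] at hodd
  have h1 : Module.finrank K1 K1⟮z⟯ = 1 := by
    obtain ⟨⟨k, hk⟩, -⟩ := hodd
    omega
  have h2 : z ∈ (⊥ : IntermediateField K1 M) := finrank_adjoin_simple_eq_one_iff.1 h1
  obtain ⟨z1, hz1⟩ := mem_bot.1 h2
  have h3 : IsAlgebraic K z1 := by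
    refine ⟨X ^ 2 + C b * X + C d, ?_, ?_⟩
    · intro h
      have h1 := congrArg (fun P => Polynomial.coeff P 2) h
      simp [coeff_X, coeff_C] at h1
    · apply (algebraMap K1 M).injective
      simp only [map_add, map_mul, map_pow, aeval_X, aeval_C, map_zero]
      rw [← IsScalarTower.algebraMap_apply, ← IsScalarTower.algebraMap_apply, hz1]
      exact hz
  obtain ⟨k, hk⟩ := hconst z1 h3
  refine ⟨k, ?_⟩
  rw [← hz1, hk, ← IsScalarTower.algebraMap_apply]

/-- maps of odd degree to an anisotropic conic -/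
theorem odd_conic2 {K M : Type} [Field K] [CharZero K] [Field M] [Algebra K M] (a c : K)
    (han : ∀ x y z : K, x ^ 2 - a * y ^ 2 = c * z ^ 2 → x = 0 ∧ y = 0 ∧ z = 0)
    (T y : M)
    (h : T ^ 2 - algebraMap K M a * y ^ 2 = algebraMap K M c)
    (hodd : Odd (Module.finrank (adjoin K ({T, y} : Set M)) M)) (hna : ¬ Algebra.IsAlgebraic K M) :
    (∀ z : M, (∃ b d : K, z ^ 2 + algebraMap K M b * z + algebraMap K M d = 0) →
      ∃ k : K, z = algebraMap K M k) ∧
    ∀ T' y' : M, T' ^ 2 - algebraMap K M a * y' ^ 2 = algebraMap K M c →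
      Odd (Module.finrank (adjoin K ({T', y'} : Set M)) M) := by
  have hc : c ≠ 0 := by
    rintro rfl
    have := (han 0 0 1 (by ring)).2.2
    exact one_ne_zero this
  have ha : a ≠ 0 := by
    rintro rfl
    have := (han 0 1 0 (by ring)).2.1
    exact one_ne_zero this
  obtain ⟨K1, hK1⟩ : ∃ K1, K1 = adjoin K ({T, y} : Set M) := ⟨_, rfl⟩
  have hT1m : T ∈ K1 := hK1 ▸ subset_adjoin _ _ (Set.mem_insert _ _)
  have hy1m : y ∈ K1 := hK1 ▸ subset_adjoin _ _ (Set.mem_insert_of_mem _ rfl)
  have hodd1 : Odd (Module.finrank K1 M) := by rw [hK1]; exact hodd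
  have hfd : FiniteDimensional K1 M := Module.finite_of_finrank_pos hodd1.pos
  have hna1 : ¬ Algebra.IsAlgebraic K K1 := by
    intro h1
    apply hna
    exact Algebra.IsAlgebraic.trans K K1 M
  have hgen1 : adjoin K ({⟨T, hT1m⟩, ⟨y, hy1m⟩} : Set K1) = ⊤ := by
    subst hK1
    apply adjoin_sub
    rw [Set.image_insert_eq, Set.image_singleton]
  have h1 : (⟨T, hT1m⟩ : K1) ^ 2 - algebraMap K K1 a * (⟨y, hy1m⟩ : K1) ^ 2 =
      algebraMap K K1 c := by
    apply Subtype.ext
    exact h
  have hconst := const_of_algebraic a c (⟨T, hT1m⟩ : K1) ⟨y, hy1m⟩ ha hc h1 hgen1 hna1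
  have hT1 : Transcendental K (⟨T, hT1m⟩ : K1) :=
    trans_T a c (⟨T, hT1m⟩ : K1) ⟨y, hy1m⟩ ha h1 hgen1 hna1
  have hT : Transcendental K T := by
    intro h2
    apply hT1
    exact (isAlgebraic_algebraMap_iff (A := M) (algebraMap K1 M).injective).1 h2
  have hpart : ∀ z : M, (∃ b d : K, z ^ 2 + algebraMap K M b * z + algebraMap K M d = 0) →
      ∃ k : K, z = algebraMap K M k := by
    rintro z ⟨b, d, hz⟩
    exact quad_const K1 hodd1 hconst z b d hz
  have hM : ∀ r : M, r ^ 2 ≠ algebraMap K M a := by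
    intro r hr
    obtain ⟨k, hk⟩ := hpart r ⟨0, -a, by rw [map_zero, map_neg, zero_mul, hr]; ring⟩
    rw [hk, ← map_pow] at hr
    have h1 : k ^ 2 = a := (algebraMap K M).injective hr
    exact one_ne_zero (han k 1 0 (by rw [h1]; ring)).2.1
  refine ⟨hpart, ?_⟩
  intro T' y' h'
  have hK : Fact (∀ r : K, r ^ 2 ≠ a + 0 * r) := ⟨fun r hr => by
    have := (han r 1 0 (by rw [hr]; ring)).2.1
    exact one_ne_zero this⟩
  have hM' : Fact (∀ r : M, r ^ 2 ≠ algebraMap K M a + 0 * r) := ⟨fun r hr => by
    apply hM r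
    rw [hr]
    ring⟩
  rw [← finrank_box a c hc T' y' h']
  have hcc : ∀ z : QuadraticAlgebra M (algebraMap K M a) 0,
      z.re ^ 2 - algebraMap K M a * z.im ^ 2 = algebraMap K M c →
      z * star z = algebraMap (QuadraticAlgebra K a 0) _ (algebraMap K _ c) := by
    intro z hz
    rw [mul_star', hz, inc_apply, QuadraticAlgebra.algebraMap_eq, map_zero]
  have ht0 : (⟨T, y⟩ : QuadraticAlgebra M (algebraMap K M a) 0) ≠ 0 := by
    intro h0
    have h1 := congrArg QuadraticAlgebra.re h0
    exact hT (by rw [show T = 0 from h1]; exact isAlgebraic_zero)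
  refine parity2 (starRingEnd (QuadraticAlgebra K a 0))
    (starRingEnd (QuadraticAlgebra M (algebraMap K M a) 0)) (fun x => by simp) ?_
    (algebraMap K _ c) ?_ ?_ ?_ ⟨T, y⟩ ?_ ?_ ?_ ⟨T', y'⟩ (hcc _ h')
  · intro x
    rw [starRingEnd_apply, starRingEnd_apply, star_eq, inc_apply, inc_apply]
    ext
    · simp [QuadraticAlgebra.re_star]
    · simp [QuadraticAlgebra.im_star]
  · exact (_root_.map_ne_zero _).2 hc
  · rw [starRingEnd_apply]
    ext
    · simp [QuadraticAlgebra.re_star]
    · simp [QuadraticAlgebra.im_star]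
  · intro u hu
    rw [starRingEnd_apply] at hu
    have h1 := congrArg QuadraticAlgebra.re hu
    simp only [QuadraticAlgebra.re_mul, QuadraticAlgebra.re_star, QuadraticAlgebra.im_star,
      QuadraticAlgebra.algebraMap_re] at h1
    have h2 := (han u.re u.im 1 (by rw [← h1]; ring)).2.2
    exact one_ne_zero h2
  · -- transcendence
    intro halg
    have hLK : Algebra.IsAlgebraic K (QuadraticAlgebra K a 0) := Algebra.IsAlgebraic.of_finite _ _
    have h1 : IsAlgebraic K (⟨T, y⟩ : QuadraticAlgebra M (algebraMap K M a) 0) :=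
      halg.restrictScalars K
    have h2 : IsAlgebraic K (star ⟨T, y⟩ : QuadraticAlgebra M (algebraMap K M a) 0) := by
      have h3 : (star ⟨T, y⟩ : QuadraticAlgebra M (algebraMap K M a) 0) =
          algebraMap K _ c * (⟨T, y⟩)⁻¹ := by
        have h4 := hcc ⟨T, y⟩ h
        rw [← IsScalarTower.algebraMap_apply] at h4
        rw [← h4]
        field_simp
      rw [h3]
      exact (isAlgebraic_algebraMap c).mul h1.inv
    have h3 : IsAlgebraic K (algebraMap M (QuadraticAlgebra M (algebraMap K M a) 0) (2 * T)) := by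
      have h4 : algebraMap M (QuadraticAlgebra M (algebraMap K M a) 0) (2 * T) =
          ⟨T, y⟩ + star ⟨T, y⟩ := by
        rw [star_eq, QuadraticAlgebra.algebraMap_eq]
        ext
        · simp
          ring
        · simp
      rw [h4]
      exact h1.add h2
    have h4 : IsAlgebraic K (2 * T) :=
      (isAlgebraic_algebraMap_iff (QuadraticAlgebra.algebraMap_injective)).1 h3
    apply hT
    have h5 : T = algebraMap K M 2⁻¹ * (2 * T) := by
      have h2M : (2 : M) ≠ 0 := by
        have h1 : ((2 : K) : K) ≠ 0 := two_ne_zero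
        have h3 := (_root_.map_ne_zero (algebraMap K M)).2 h1
        rwa [map_ofNat] at h3
      rw [map_inv₀, map_ofNat]
      field_simp
    rw [h5]
    exact (isAlgebraic_algebraMap _).mul h4
  · rw [finrank_box a c hc T y h]
    exact hodd
  · rw [eq_div_iff ht0, starRingEnd_apply, mul_comm]
    exact hcc _ h

end

end Pool.Agent.Q79.CB
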